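import Mathlib

/-! Kazhdan's property (T) and Serre's property (FA) for discrete groups. -/

set_option autoImplicit false

namespace Pool.Agent.Work.MP_d2e081_al

/-- Kazhdan's property (T) for a discrete group: there are a finite set `Q` and `ε > 0` such that
every unitary representation with a `(Q, ε)`-almost invariant unit vector has a nonzero invariant
vector. -/
def Kazhdan (G : Type) [Group G] : Prop :=
  ∃ Q : Finset G, ∃ ε : ℝ, 0 < ε ∧
    ∀ (H : Type) [NormedAddCommGroup H] [InnerProductSpace ℂ H] [CompleteSpace H]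
      (π : G →* (H ≃ₗᵢ[ℂ] H)), (∃ v : H, ‖v‖ = 1 ∧ ∀ g ∈ Q, ‖π g v - v‖ < ε) →
      ∃ w : H, w ≠ 0 ∧ ∀ g : G, π g w = w

/-- Property (FA): every action on a tree by automorphisms and without inversions fixes a
vertex. -/
def HasFA (G : Type) [Group G] : Prop :=
  ∀ (V : Type) [MulAction G V] (T : SimpleGraph V), T.IsTree →
    (∀ g : G, ∀ x y : V, T.Adj x y → T.Adj (g • x) (g • y)) →
    (∀ g : G, ∀ x y : V, T.Adj x y → ¬ (g • x = y ∧ g • y = x)) →
    ∃ v : V, ∀ g : G, g • v = v

end Pool.Agent.Work.MP_d2e081_al
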