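import Pool.Agent.Work.MP_d2e081_al.Tree
import Pool.Agent.Work.MP_3b70de_al.E.Angle

/-! Property (T) from the angles between three fixed spaces. -/

set_option autoImplicit false

namespace Pool.Agent.Work.MP_d2e081_al

open Pool.Agent.Work.MP_3b70de_al.E
open scoped InnerProductSpace

variable {H : Type} [NormedAddCommGroup H] [InnerProductSpace ℂ H] [CompleteSpace H]

theorem Heis.angle [Fintype K8] {B : Type} [AddCommGroup B] [Module K8 B] [Fintype B]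
    {x : K8 → UH H} {y z : B → UH H} (h : Heis K8 x y z) (ξ : H) :
    -(3 / 8 * (‖ξ - avg x ξ‖ ^ 2 + ‖ξ - avg y ξ‖ ^ 2)) ≤
      2 * (⟪ξ - avg x ξ, ξ - avg y ξ⟫_ℂ).re :=
  MP_3b70de_al.E.angle h.hx h.hy h.hz h.zx h.zy h.xy ξ

theorem kaz_cs {P : H →L[ℂ] H} {F : H → Prop} (hP : IsProj P F) (ζ ξ : H) :
    (⟪ζ, ξ - P ξ⟫_ℂ).re ≤ ‖ζ - P ζ‖ * ‖ξ - P ξ‖ := by
  have h0 : ⟪P ζ, ξ - P ξ⟫_ℂ = 0 := by rw [hP.symm, map_sub, hP.idem, sub_self, inner_zero_right]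
  have : ⟪ζ, ξ - P ξ⟫_ℂ = ⟪ζ - P ζ, ξ - P ξ⟫_ℂ := by rw [inner_sub_left, h0, sub_zero]
  rw [this]
  exact re_inner_le_norm (𝕜 := ℂ) _ _

theorem kaz_self {P : H →L[ℂ] H} {F : H → Prop} (hP : IsProj P F) (ζ : H) :
    (⟪ζ, ζ - P ζ⟫_ℂ).re = ‖ζ - P ζ‖ ^ 2 := by
  have h0 : ⟪P ζ, ζ - P ζ⟫_ℂ = 0 := by rw [hP.symm, map_sub, hP.idem, sub_self, inner_zero_right]
  have : ⟪ζ, ζ - P ζ⟫_ℂ = ⟪ζ - P ζ, ζ - P ζ⟫_ℂ := by rw [inner_sub_left, h0, sub_zero]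
  rw [this]
  exact inner_self_eq_norm_sq (𝕜 := ℂ) _

theorem kaz_gap {P Q S : H →L[ℂ] H} {F1 F2 F3 : H → Prop} (hP : IsProj P F1) (hQ : IsProj Q F2)
    (hS : IsProj S F3)
    (h : ∀ ξ, ‖ξ - P ξ‖ ^ 2 + ‖ξ - Q ξ‖ ^ 2 + ‖ξ - S ξ‖ ^ 2 ≤
      4 * ‖(ξ - P ξ) + (ξ - Q ξ) + (ξ - S ξ)‖ ^ 2)
    (h0 : ∀ ξ, F1 ξ → F2 ξ → F3 ξ → ξ = 0) (ζ : H) :
    ‖ζ‖ ^ 2 ≤ 4 * (‖ζ - P ζ‖ ^ 2 + ‖ζ - Q ζ‖ ^ 2 + ‖ζ - S ζ‖ ^ 2) := by
  let D : H →L[ℂ] H := (1 - P) + (1 - Q) + (1 - S)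
  have hD : ∀ ξ, D ξ = (ξ - P ξ) + (ξ - Q ξ) + (ξ - S ξ) := fun ξ => rfl
  have hsym : ∀ a b, ⟪D a, b⟫_ℂ = ⟪a, D b⟫_ℂ := fun a b => by
    simp only [hD, inner_add_left, inner_add_right, inner_sub_left, inner_sub_right, hP.symm,
      hQ.symm, hS.symm]
  have hd : Dense ((LinearMap.range (D : H →ₗ[ℂ] H) : Submodule ℂ H) : Set H) := by
    rw [Submodule.dense_iff_topologicalClosure_eq_top, Submodule.topologicalClosure_eq_top_iff,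
      Submodule.eq_bot_iff]
    intro η hη
    have h1 : D η = 0 := by
      have := (Submodule.mem_orthogonal _ _).1 hη (D (D η)) ⟨D η, rfl⟩
      rw [hsym] at this
      exact inner_self_eq_zero.1 this
    have h2 := h η
    rw [← hD, h1, norm_zero] at h2
    have k : ∀ a b c : ℝ, a ^ 2 + b ^ 2 + c ^ 2 ≤ 4 * 0 ^ 2 → a = 0 ∧ b = 0 ∧ c = 0 :=
      fun a b c e => ⟨by nlinarith [sq_nonneg b, sq_nonneg c],
        by nlinarith [sq_nonneg a, sq_nonneg c], by nlinarith [sq_nonneg a, sq_nonneg b]⟩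
    obtain ⟨a, b, c⟩ := k _ _ _ h2
    rw [norm_eq_zero, sub_eq_zero] at a b c
    exact h0 η ((hP.2 η).1 a.symm) ((hQ.2 η).1 b.symm) ((hS.2 η).1 c.symm)
  set s := ‖ζ - P ζ‖ ^ 2 + ‖ζ - Q ζ‖ ^ 2 + ‖ζ - S ζ‖ ^ 2 with hs
  have hs0 : 0 ≤ s := by positivity
  have h3 : ∀ η, (⟪ζ, η⟫_ℂ).re ≤ 2 * √s * ‖η‖ := by
    intro η
    refine closure_minimal (t := {η | (⟪ζ, η⟫_ℂ).re ≤ 2 * √s * ‖η‖}) ?_
      (isClosed_le (by fun_prop) (by fun_prop)) (hd η)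
    rintro _ ⟨ξ, rfl⟩
    have e : (D : H →ₗ[ℂ] H) ξ = (ξ - P ξ) + (ξ - Q ξ) + (ξ - S ξ) := rfl
    rw [Set.mem_ofPred_eq, e, inner_add_right, inner_add_right, Complex.add_re, Complex.add_re]
    have c1 := kaz_cs hP ζ ξ
    have c2 := kaz_cs hQ ζ ξ
    have c3 := kaz_cs hS ζ ξ
    have c4 := h ξ
    refine (add_le_add (add_le_add c1 c2) c3).trans (abs_le_of_sq_le_sq' ?_ (by positivity)).2
    rw [mul_pow, mul_pow, Real.sq_sqrt hs0]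
    refine le_trans ?_ ((mul_le_mul_of_nonneg_left c4 hs0).trans_eq (by ring))
    rw [hs]
    generalize ‖ζ - P ζ‖ = a1, ‖ζ - Q ζ‖ = a2, ‖ζ - S ζ‖ = a3, ‖ξ - P ξ‖ = b1, ‖ξ - Q ξ‖ = b2,
      ‖ξ - S ξ‖ = b3
    nlinarith [sq_nonneg (a1 * b2 - a2 * b1), sq_nonneg (a1 * b3 - a3 * b1),
      sq_nonneg (a2 * b3 - a3 * b2)]
  have h4 := h3 ζ
  have h5 : (⟪ζ, ζ⟫_ℂ).re = ‖ζ‖ ^ 2 := inner_self_eq_norm_sq (𝕜 := ℂ) _
  have h6 := Real.sq_sqrt hs0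
  rw [h5] at h4
  nlinarith [sq_nonneg (‖ζ‖ - 2 * √s)]

theorem kaz_avg {B : Type} [AddCommGroup B] [Fintype B] {f : B → UH H} {v : H} {ε : ℝ}
    (h : ∀ b, ‖f b • v - v‖ < ε) : ‖v - avg f v‖ ≤ ε := by
  have e : v - avg f v = (Fintype.card B : ℂ)⁻¹ • ∑ b, (v - f b • v) := by
    rw [Finset.sum_sub_distrib, smul_sub, Angle_const, Angle_apply]
  have hc : (0 : ℝ) < Fintype.card B := Nat.cast_pos.2 Fintype.card_pos
  rw [e, norm_smul, norm_inv, Complex.norm_natCast, inv_mul_le_iff₀ hc]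
  refine (norm_sum_le _ _).trans ?_
  calc ∑ b, ‖v - f b • v‖ ≤ ∑ _b : B, ε :=
        Finset.sum_le_sum fun b _ => by rw [norm_sub_rev]; exact (h b).le
    _ = _ := by simp

theorem Tri.kazhdan {G B : Type} [Group G] [AddCommGroup B] [Module K8 B] [Finite B]
    (t : Tri K8 B G) : Kazhdan G := by
  classical
  have := Fintype.ofFinite K8
  have := Fintype.ofFinite B
  refine ⟨Finset.univ.image t.x ∪ Finset.univ.image t.y ∪ Finset.univ.image t.z, 1 / 4,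
    by norm_num, fun H _ _ _ π ⟨v, hv, hQ⟩ => ?_⟩
  by_contra hne
  push Not at hne
  let ρ : G →* UH H := (Unitary.linearIsometryEquiv.symm : (H ≃ₗᵢ[ℂ] H) ≃* _).toMonoidHom.comp π
  have hρ : ∀ g ξ, ρ g • ξ = π g ξ := fun g ξ => rfl
  have h1 := t.h1.map ρ
  have h2 := t.h2.map ρ
  have h3 := t.h3.map ρ
  have p1 := avg_isProj (f := fun a => ρ (t.x a)) h1.hx
  have p2 := avg_isProj (f := fun a => ρ (t.y a)) h2.hx
  have p3 := avg_isProj (f := fun a => ρ (t.z a)) h2.hy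
  have key := kaz_gap p1 p2 p3 (fun ξ => by
    have a1 := h1.angle ξ
    have a2 := h2.angle ξ
    have a3 := h3.angle ξ
    have e : ∀ a b : H, ‖a + b‖ ^ 2 = ‖a‖ ^ 2 + 2 * (⟪a, b⟫_ℂ).re + ‖b‖ ^ 2 := fun a b =>
      norm_add_sq (𝕜 := ℂ) a b
    rw [e, e, inner_add_left, Complex.add_re]
    linarith) (fun ξ a b c => by
    by_contra h0
    obtain ⟨g, hg⟩ := hne ξ h0
    have := t.gen ((MulAction.stabilizer (UH H) ξ).comap ρ) a b c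
    exact hg (show g ∈ (MulAction.stabilizer (UH H) ξ).comap ρ from this ▸ Subgroup.mem_top g)) v
  have b1 := kaz_avg (f := fun a => ρ (t.x a)) fun a => hQ (t.x a) (by simp)
  have b2 := kaz_avg (f := fun a => ρ (t.y a)) fun a => hQ (t.y a) (by simp)
  have b3 := kaz_avg (f := fun a => ρ (t.z a)) fun a => hQ (t.z a) (by simp)
  rw [hv] at key
  have c1 := pow_le_pow_left₀ (norm_nonneg _) b1 2
  have c2 := pow_le_pow_left₀ (norm_nonneg _) b2 2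
  have c3 := pow_le_pow_left₀ (norm_nonneg _) b3 2
  linarith

end Pool.Agent.Work.MP_d2e081_al
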