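import Pool.Agent.Work.MP_d2e081_al.Defs
import Pool.Agent.Work.MP_3b70de_al.E.LpOp

-- merged part: Pool.Agent.Work.MP_d2e081_al.BS
section
/-! The tree of a free product of two groups. -/

set_option autoImplicit false

namespace Pool.Agent.Work.MP_d2e081_al

open SimpleGraph Monoid CoprodI

theorem acyclic_of_height {V : Type} {T : SimpleGraph V} (ht : V → ℕ)
    (h1 : ∀ u v, T.Adj u v → ht u ≠ ht v)
    (h2 : ∀ v u u', T.Adj v u → T.Adj v u' → ht u < ht v → ht u' < ht v → u = u') :
    T.IsAcyclic := by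
  classical
  intro v c hc
  obtain ⟨u, hu, hm⟩ := c.support.toFinset.exists_max_image ht ⟨v, by simp⟩
  rw [List.mem_toFinset] at hu
  have h3 := hc.rotate hu
  have h4 : ∀ n, ht ((c.rotate u hu).getVert n) ≤ ht u := fun n =>
    hm _ (List.mem_toFinset.2 ((Walk.mem_support_rotate_iff _ _ hu).1 (Walk.getVert_mem_support _ n)))
  have a := Walk.adj_snd h3.not_nil
  have b := (Walk.adj_penultimate h3.not_nil).symm
  exact h3.snd_ne_penultimate (h2 u _ _ a b (lt_of_le_of_ne (h4 _) (h1 _ _ a).symm)
    (lt_of_le_of_ne (h4 _) (h1 _ _ b).symm))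

theorem HasFA.of_surjective {G H : Type} [Group G] [Group H] (h : HasFA G) (f : G →* H)
    (hf : Function.Surjective f) : HasFA H := by
  intro V _ T hT act ninv
  let : MulAction G V := MulAction.compHom V f
  obtain ⟨v, hv⟩ := h V T hT (fun g => act (f g)) (fun g => ninv (f g))
  refine ⟨v, fun x => ?_⟩
  obtain ⟨g, rfl⟩ := hf x
  exact hv g

variable {Q : Type} [Group Q]

/-- The free product of two copies of `Q`. -/
abbrev Db (Q : Type) [Group Q] : Type := CoprodI fun _ : Bool => Q

/-- The inclusion of a factor. -/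
abbrev fac (i : Bool) : Q →* Db Q := CoprodI.of (M := fun _ : Bool => Q) (i := i)

/-- The vertices: cosets of the two factors. -/
abbrev Vx (Q : Type) [Group Q] : Type := Σ i : Bool, Db Q ⧸ (fac (Q := Q) i).range

/-- The vertex of an element. -/
def vx (i : Bool) (g : Db Q) : Vx Q := ⟨i, QuotientGroup.mk g⟩

theorem smul_vx (h : Db Q) (i : Bool) (g : Db Q) : h • vx i g = vx i (h * g) := rfl

theorem vx_eq {i : Bool} {g g' : Db Q} : vx i g = vx i g' ↔ ∃ q, g' = g * fac i q := by
  simp only [vx, Sigma.mk.injEq, heq_eq_eq, true_and, QuotientGroup.eq, MonoidHom.mem_range,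
    eq_inv_mul_iff_mul_eq]
  exact exists_congr fun _ => eq_comm

/-- The tree. -/
def bs (Q : Type) [Group Q] : SimpleGraph (Vx Q) where
  Adj u v := ∃ g i, u = vx i g ∧ v = vx (!i) g
  symm := ⟨fun _ _ ⟨g, i, h1, h2⟩ => ⟨g, !i, h2, by rw [Bool.not_not, h1]⟩⟩
  loopless := ⟨fun _ ⟨_, i, h1, h2⟩ => by
    have := congrArg Sigma.fst (h1.symm.trans h2)
    cases i <;> cases this⟩

theorem bs_act (h : Db Q) (x y : Vx Q) : (bs Q).Adj x y → (bs Q).Adj (h • x) (h • y) := by
  rintro ⟨g, i, rfl, rfl⟩
  exact ⟨h * g, i, rfl, rfl⟩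

theorem bs_reach (i j : Bool) (g : Db Q) : (bs Q).Reachable (vx i g) (vx j g) := by
  by_cases h : j = i
  · rw [h]
  · exact Adj.reachable ⟨g, i, rfl, by rw [Bool.eq_not_iff.2 h]⟩

theorem bs_conn : (bs Q).Connected := by
  have h : ∀ g : Db Q, (bs Q).Reachable (vx false 1) (vx false g) := fun g => by
    induction g using CoprodI.induction_left with
    | one => rfl
    | @mul i m x ih =>
      have h1 := ih.map (⟨fun v => fac i m • v, fun h => bs_act _ _ _ h⟩ : bs Q →g bs Q)
      have h2 : vx i 1 = vx i (fac i m * 1) := vx_eq.2 ⟨m, by simp⟩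
      exact ((bs_reach false i 1).trans (h2 ▸ bs_reach i false _)).trans h1
  have h' : ∀ v, (bs Q).Reachable (vx false 1) v := by
    rintro ⟨i, c⟩
    obtain ⟨g, rfl⟩ := QuotientGroup.mk_surjective c
    exact (h g).trans (bs_reach false i g)
  exact (connected_iff_exists_forall_reachable _).2 ⟨_, h'⟩

open Classical in
/-- The reduced word of the inverse. -/
noncomputable def wd (g : Db Q) : Word fun _ : Bool => Q := Word.equiv g⁻¹

open Classical in
/-- The shortest word of a coset. -/
noncomputable def tl (i : Bool) (g : Db Q) : Word fun _ : Bool => Q :=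
  (Word.equivPair i (wd g)).tail

theorem tl_eq {i : Bool} {g g' : Db Q} (h : vx i g = vx i g') : tl i g = tl i g' := by
  classical
  obtain ⟨q, rfl⟩ := vx_eq.1 h
  have : wd (g * fac i q) = fac i q⁻¹ • wd g := by
    rw [wd, mul_inv_rev, ← map_inv]
    exact mul_smul (fac i q⁻¹) g⁻¹ (Word.empty : Word fun _ : Bool => Q)
  rw [tl, tl, this, Word.equivPair_smul_same]

theorem tl_cases (i : Bool) (g : Db Q) : tl i g = wd g ∨
    (tl i g).toList.length + 1 = (tl (!i) g).toList.length := by
  classical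
  have e : Word.rcons (Word.equivPair i (wd g)) = wd g := (Word.equivPair i).symm_apply_apply _
  rw [Word.rcons] at e
  split_ifs at e with h
  · exact Or.inl e
  · have h1 : (wd g).fstIdx ≠ some (!i) := by
      rw [← e, Word.fstIdx_cons]
      cases i <;> simp
    right
    rw [tl, tl, Word.equivPair_eq_of_fstIdx_ne h1]
    exact (congrArg (fun w => w.toList.length) e)

/-- The height of a vertex. -/
noncomputable def hgt (v : Vx Q) : ℕ := 2 * (tl v.1 v.2.out).toList.length + v.1.toNat

theorem hgt_vx (i : Bool) (g : Db Q) : hgt (vx i g) = 2 * (tl i g).toList.length + i.toNat := by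
  have : vx i (vx i g).2.out = vx i g := congrArg (Sigma.mk i) (QuotientGroup.out_eq' _)
  exact congrArg (fun w : Word fun _ : Bool => Q => 2 * w.toList.length + i.toNat) (tl_eq this)

theorem bs_tree : (bs Q).IsTree := by
  classical
  refine ⟨bs_conn, acyclic_of_height hgt ?_ ?_⟩
  · rintro _ _ ⟨g, i, rfl, rfl⟩
    rw [hgt_vx, hgt_vx]
    cases i <;> simp <;> omega
  · rintro _ _ _ ⟨g, i, rfl, rfl⟩ ⟨g', j, e, rfl⟩ h1 h2
    obtain rfl : i = j := congrArg Sigma.fst e
    rw [e] at h2
    have k : ∀ g : Db Q, hgt (vx (!i) g) < hgt (vx i g) → tl i g = wd g := fun g h =>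
      (tl_cases i g).resolve_right fun h' => by
        rw [hgt_vx, hgt_vx] at h
        have := Bool.toNat_le i
        omega
    have := tl_eq e
    rw [k g h1, k g' h2] at this
    rw [inv_injective (Word.equiv.injective this)]

theorem not_hasFA_db [Nontrivial Q] : ¬ HasFA (Db Q) := by
  intro h
  obtain ⟨⟨i, c⟩, hv⟩ := h (Vx Q) (bs Q) bs_tree bs_act (by
    rintro g _ _ ⟨x, i, rfl, rfl⟩ ⟨h1, -⟩
    have := congrArg Sigma.fst h1
    cases i <;> cases this)
  obtain ⟨g, rfl⟩ := QuotientGroup.mk_surjective c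
  obtain ⟨q, hq⟩ := exists_ne (1 : Q)
  obtain ⟨r, hr⟩ := vx_eq.1 (show vx i g = vx i (g * fac (!i) q * g⁻¹ * g) from (hv _).symm)
  rw [inv_mul_cancel_right, mul_right_inj] at hr
  have := congrArg (CoprodI.lift fun j : Bool => if j = i then (1 : Q →* Q) else MonoidHom.id Q) hr
  rw [lift_of, lift_of] at this
  cases i <;> exact hq this

end Pool.Agent.Work.MP_d2e081_al
end

-- merged part: Pool.Agent.Work.MP_d2e081_al.NotT
section
/-! A group mapping onto a free product of two infinite groups is not a Kazhdan group. -/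

set_option autoImplicit false

namespace Pool.Agent.Work.MP_d2e081_al

open Monoid CoprodI Filter Topology Pool.Agent.Work.MP_3b70de_al.E

open scoped InnerProductSpace

theorem exists_rep (Q : Type) [Group Q] [Infinite Q] :
    ∃ π : Q →* L2 (Option Q) ℂ ≃ₗᵢ[ℂ] L2 (Option Q) ℂ,
      (∀ w, (∀ q, π q w = w) ↔ ∀ q, w (some q) = 0) := by
  obtain ⟨U, hU⟩ := exists_permRep (Ω := Option Q) (W := ℂ)
  refine ⟨(Unitary.linearIsometryEquiv : UH (L2 (Option Q) ℂ) ≃* _).toMonoidHom.comp
    (U.comp (MulAction.toPermHom Q (Option Q))), fun w => ⟨fun h => ?_, fun h q => ?_⟩⟩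
  · have h1 : ∀ q, w (some q) = w (some 1) := fun q => by
      have := hU (MulAction.toPermHom Q (Option Q) q) w (some q)
      rw [show U (MulAction.toPermHom Q (Option Q) q) • w = w from h q] at this
      rw [this]
      exact congrArg (fun x => w (some x)) (inv_mul_cancel q)
    have h2 := ((lp.memℓp w).summable (by norm_num)).comp_injective (Option.some_injective Q)
    have h3 : Summable fun _ : Q => ‖w (some 1)‖ ^ (2 : ENNReal).toReal :=
      h2.congr fun q => by rw [Function.comp_apply, h1]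
    intro q
    simpa [h1] using (summable_const_iff _).1 h3
  · refine lp.ext (funext fun o => (hU _ w o).trans ?_)
    cases o with
    | none => rfl
    | some x => exact (h _).trans (h x).symm

theorem not_kazhdan {Q H : Type} [Group Q] [Infinite Q] [Group H] (f : H →* Db Q)
    (hf : Function.Surjective f) : ¬ Kazhdan H := by
  classical
  rintro ⟨S, ε, hε, h⟩
  obtain ⟨π, hπ⟩ := exists_rep Q
  let e : L2 (Option Q) ℂ := lp.single 2 none 1
  let d : L2 (Option Q) ℂ := lp.single 2 (some 1) 1
  have he : ‖e‖ = 1 := (lp.norm_single (by norm_num) _ _).trans norm_one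
  have hd : ‖d‖ = 1 := (lp.norm_single (by norm_num) _ _).trans norm_one
  have hπe : ∀ q, π q e = e := (hπ e).2 fun q => by simp [e, lp.single_apply]
  let R : ℂ → L2 (Option Q) ℂ ≃ₗᵢ[ℂ] L2 (Option Q) ℂ := fun t => (ℂ ∙ (e + t • d)).reflection
  let ρ : ℂ → Db Q →* L2 (Option Q) ℂ ≃ₗᵢ[ℂ] L2 (Option Q) ℂ := fun t =>
    lift fun b => (MulAut.conj (if b then R t else 1)).toMonoidHom.comp π
  have h0 : ∀ t q v, ρ t (fac false q) v = π q v := fun t q v => by
    simp [ρ]
  have h1 : ∀ t q v, ρ t (fac true q) v = R t (π q (R t v)) := fun t q v => by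
    simp [ρ, R]
  have hRR : ∀ t v, R t (R t v) = v := fun t v => Submodule.reflection_reflection _ _
  have hR : ∀ t, ‖R t e - e‖ ≤ 2 * ‖t‖ := fun t => by
    have a : R t (e + t • d) = e + t • d :=
      Submodule.reflection_mem_subspace_eq_self (Submodule.mem_span_singleton_self _)
    rw [map_add] at a
    rw [eq_sub_of_add_eq a, show e + t • d - R t (t • d) - e = t • d - R t (t • d) by abel]
    refine (norm_sub_le _ _).trans ?_
    rw [LinearIsometryEquiv.norm_map, norm_smul, hd]
    linarith
  have key : ∀ g, ∃ c : ℝ, ∀ t, ‖ρ t g e - e‖ ≤ c * ‖t‖ := fun g => by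
    induction g using CoprodI.induction_on with
    | one => exact ⟨0, fun t => by simp⟩
    | of b q =>
      cases b
      · exact ⟨0, fun t => by simp [h0, hπe]⟩
      · refine ⟨4, fun t => ?_⟩
        rw [h1, show R t (π q (R t e)) - e = R t (π q (R t e - e)) + (R t e - e) by
          rw [map_sub, map_sub, hπe, sub_add_sub_cancel]]
        refine (norm_add_le _ _).trans ?_
        rw [LinearIsometryEquiv.norm_map, LinearIsometryEquiv.norm_map]
        linarith [hR t]
    | mul x y hx hy =>
      obtain ⟨a, ha⟩ := hx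
      obtain ⟨b, hb⟩ := hy
      refine ⟨a + b, fun t => ?_⟩
      rw [map_mul, show (ρ t x * ρ t y) e - e = ρ t x (ρ t y e - e) + (ρ t x e - e) by
        rw [map_sub, sub_add_sub_cancel]; rfl]
      refine (norm_add_le _ _).trans ?_
      rw [LinearIsometryEquiv.norm_map]
      linarith [ha t, hb t]
  have ev : ∀ᶠ t in 𝓝[≠] (0 : ℂ), ∀ g ∈ S, ‖ρ t (f g) e - e‖ < ε :=
    (eventually_all_finset S).2 fun g _ => by
      obtain ⟨c, hc⟩ := key (f g)
      have : Tendsto (fun t : ℂ => c * ‖t‖) (𝓝 0) (𝓝 0) :=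
        Continuous.tendsto' (by fun_prop) _ _ (by simp)
      exact ((this.eventually_lt_const hε).filter_mono nhdsWithin_le_nhds).mono
        fun t ht => (hc t).trans_lt ht
  obtain ⟨t, ht, ht0⟩ := (ev.and self_mem_nhdsWithin).exists
  obtain ⟨w, hw, hw'⟩ := h _ ((ρ t).comp f) ⟨e, he, ht⟩
  have hf' : ∀ g, ρ t g w = w := fun g => by
    obtain ⟨g, rfl⟩ := hf g
    exact hw' g
  have a := (hπ w).1 fun q => (h0 t q w).symm.trans (hf' _)
  have b := (hπ (R t w)).1 (fun q => by
    have := congrArg (R t) ((h1 t q w).symm.trans (hf' _))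
    rwa [hRR] at this) 1
  have hu1 : (e + t • d) (some 1) = t := by
    change e (some 1) + t * d (some 1) = t
    simp [e, d, lp.single_apply]
  have hu : e + t • d ≠ 0 := fun z => ht0 (by rw [← hu1, z]; rfl)
  have c : ⟪e + t • d, w⟫_ℂ = w none := by
    rw [inner_add_left, inner_smul_left, lp.inner_single_left, lp.inner_single_left]
    simp [a]
  simp only [R, Submodule.reflection_singleton_apply, c] at b
  change 2 • ((w none / _) * (e + t • d) (some 1)) - w (some 1) = 0 at b
  have b' : w none = 0 := by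
    simpa [a, hu1, show t ≠ 0 from ht0, hu] using b
  refine hw (lp.ext (funext fun o => ?_))
  cases o
  exacts [b', a _]

end Pool.Agent.Work.MP_d2e081_al
end
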