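import Pool.Agent.Work.MP_d2e081_al.Defs

-- merged part: Pool.Agent.Work.MP_d2e081_al.St
section
/-! Steinberg relations of rank two. -/

set_option autoImplicit false

namespace Pool.Agent.Work.MP_d2e081_al

open scoped commutatorElement

variable {G R : Type} [Group G] [Ring R]

/-- The Steinberg relations for three indices. -/
structure St3 (X : Fin 3 → Fin 3 → R → G) : Prop where
  add : ∀ i j r s, X i j (r + s) = X i j r * X i j s
  comm : ∀ i j k l r s, j ≠ k → i ≠ l → Commute (X i j r) (X k l s)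
  st : ∀ i j k r s, i ≠ j → j ≠ k → i ≠ k → ⁅X i j r, X j k s⁆ = X i k (r * s)
  diag : ∀ i r, X i i r = 1

variable {X : Fin 3 → Fin 3 → R → G}

theorem St3.map {G' : Type} [Group G'] (h : St3 X) (f : G →* G') :
    St3 fun i j r => f (X i j r) where
  add i j a b := by rw [← map_mul, h.add]
  comm i j k l a b h1 h2 := (h.comm i j k l a b h1 h2).map f
  st i j k a b h1 h2 h3 := by rw [← map_commutatorElement, h.st i j k a b h1 h2 h3]
  diag i r := by rw [h.diag, map_one]

theorem St3.zero (h : St3 X) (i j : Fin 3) : X i j 0 = 1 := by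
  have := h.add i j 0 0
  rw [add_zero] at this
  exact left_eq_mul.1 this

theorem St3.neg (h : St3 X) (i j : Fin 3) (r : R) : X i j (-r) = (X i j r)⁻¹ :=
  eq_inv_of_mul_eq_one_left (by rw [← h.add, neg_add_cancel, h.zero])

/-- From one position to all positions. -/
theorem St3.all (h : St3 X) {N : Subgroup G}
    (hc : ∀ i j, ∀ g ∈ N, X i j 1 * g * (X i j 1)⁻¹ ∈ N ∧ (X i j 1)⁻¹ * g * X i j 1 ∈ N)
    {r : R} (hr : X 2 0 r ∈ N) (i j : Fin 3) : X i j r ∈ N := by
  have a : ∀ i j k, i ≠ j → j ≠ k → i ≠ k → X i j r ∈ N → X i k r ∈ N := by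
    intro i j k h1 h2 h3 hm
    have := N.mul_mem hm (hc j k _ (N.inv_mem hm)).1
    rwa [← mul_assoc, ← mul_assoc, ← commutatorElement_def, h.st i j k _ _ h1 h2 h3,
      mul_one] at this
  have b : ∀ i j k, i ≠ j → j ≠ k → i ≠ k → X j k r ∈ N → X i k r ∈ N := by
    intro i j k h1 h2 h3 hm
    have := N.mul_mem (hc i j _ hm).1 (N.inv_mem hm)
    rwa [← commutatorElement_def, h.st i j k _ _ h1 h2 h3, one_mul] at this
  have h21 := a 2 0 1 (by decide) (by decide) (by decide) hr
  have h10 := b 1 2 0 (by decide) (by decide) (by decide) hr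
  have h01 := b 0 2 1 (by decide) (by decide) (by decide) h21
  have h12 := a 1 0 2 (by decide) (by decide) (by decide) h10
  have h02 := a 0 1 2 (by decide) (by decide) (by decide) h01
  have hd : ∀ i, X i i r ∈ N := fun i => by rw [h.diag]; exact N.one_mem
  fin_cases i <;> fin_cases j <;> first | assumption | exact hd _

/-- Products: a subgroup normalised by the elements with entry `s`. -/
theorem St3.mul_right (h : St3 X) {N : Subgroup G} {r s : R} (hr : ∀ i j, X i j r ∈ N)
    (hc : ∀ i j, ∀ g ∈ N, X i j s * g * (X i j s)⁻¹ ∈ N) (i k : Fin 3) : X i k (r * s) ∈ N := by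
  by_cases hik : i = k
  · rw [hik, h.diag]
    exact N.one_mem
  obtain ⟨j, h1, h2⟩ : ∃ j, i ≠ j ∧ j ≠ k := by revert i k; decide
  have := N.mul_mem (hr i j) (hc j k _ (N.inv_mem (hr i j)))
  rwa [← mul_assoc, ← mul_assoc, ← commutatorElement_def, h.st i j k _ _ h1 h2 hik] at this

theorem St3.mul_left (h : St3 X) {N : Subgroup G} {r s : R} (hr : ∀ i j, X i j r ∈ N)
    (hc : ∀ i j, ∀ g ∈ N, X i j s * g * (X i j s)⁻¹ ∈ N) (i k : Fin 3) : X i k (s * r) ∈ N := by
  by_cases hik : i = k
  · rw [hik, h.diag]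
    exact N.one_mem
  obtain ⟨j, h1, h2⟩ : ∃ j, i ≠ j ∧ j ≠ k := by revert i k; decide
  have := N.mul_mem (hc i j _ (hr j k)) (N.inv_mem (hr j k))
  rwa [← commutatorElement_def, h.st i j k _ _ h1 h2 hik] at this

variable {K : Type} [Field K] [Algebra K R]

/-- Three finite subgroups generate everything. -/
theorem St3.gen (h : St3 X) {ι : Type} (γ : ι → R)
    (hγ : Algebra.adjoin K (Set.range γ) = ⊤) {N : Subgroup G} (h01 : X 0 1 1 ∈ N)
    (h12 : X 1 2 1 ∈ N) (h20 : ∀ a : K, X 2 0 (algebraMap K R a) ∈ N) (hg : ∀ i, X 2 0 (γ i) ∈ N)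
    (r : R) (i j : Fin 3) : X i j r ∈ N := by
  have h20' : X 2 0 1 ∈ N := by simpa using h20 1
  have c : ∀ i j k, i ≠ j → j ≠ k → i ≠ k → X i j 1 ∈ N → X j k 1 ∈ N → X i k 1 ∈ N := by
    intro i j k h1 h2 h3 a b
    have := h.st i j k 1 1 h1 h2 h3
    rw [mul_one] at this
    rw [← this, commutatorElement_def]
    exact N.mul_mem (N.mul_mem (N.mul_mem a b) (N.inv_mem a)) (N.inv_mem b)
  have h02 := c 0 1 2 (by decide) (by decide) (by decide) h01 h12
  have h10 := c 1 2 0 (by decide) (by decide) (by decide) h12 h20'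
  have h21 := c 2 0 1 (by decide) (by decide) (by decide) h20' h01
  have hd : ∀ i, X i i 1 ∈ N := fun i => by rw [h.diag]; exact N.one_mem
  have h1 : ∀ i j, X i j 1 ∈ N := fun i j => by
    fin_cases i <;> fin_cases j <;> first | assumption | exact hd _
  have hall : ∀ r, X 2 0 r ∈ N → ∀ i j, X i j r ∈ N := fun r hr =>
    h.all (fun i j g hg => ⟨N.mul_mem (N.mul_mem (h1 i j) hg) (N.inv_mem (h1 i j)),
      N.mul_mem (N.mul_mem (N.inv_mem (h1 i j)) hg) (h1 i j)⟩) hr
  have hr : r ∈ Algebra.adjoin K (Set.range γ) := hγ ▸ Algebra.mem_top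
  induction hr using Algebra.adjoin_induction generalizing i j with
  | mem x hx =>
    obtain ⟨l, rfl⟩ := hx
    exact hall _ (hg l) i j
  | algebraMap a => exact hall _ (h20 a) i j
  | add x y _ _ hx hy =>
    rw [h.add]
    exact N.mul_mem (hx i j) (hy i j)
  | mul x y _ _ hx hy =>
    exact h.mul_right hx (fun i j g hg =>
      N.mul_mem (N.mul_mem (hy i j) hg) (N.inv_mem (hy i j))) i j

/-- A Heisenberg triple: two families whose commutators form a third central family. -/
structure Heis (K : Type) [Field K] {B : Type} [AddCommGroup B] [Module K B] (x : K → G)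
    (y z : B → G) : Prop where
  hx : ∀ a b, x (a + b) = x a * x b
  hy : ∀ a b, y (a + b) = y a * y b
  hz : ∀ a b, z (a + b) = z a * z b
  zx : ∀ a b, Commute (z b) (x a)
  zy : ∀ a b, Commute (z b) (y a)
  xy : ∀ a b, x a * y b = z (a • b) * (y b * x a)

theorem Heis.map {G' : Type} [Group G'] {B : Type} [AddCommGroup B] [Module K B] {x : K → G}
    {y z : B → G} (h : Heis K x y z) (f : G →* G') :
    Heis K (fun a => f (x a)) (fun a => f (y a)) fun a => f (z a) where
  hx a b := by rw [h.hx, map_mul]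
  hy a b := by rw [h.hy, map_mul]
  hz a b := by rw [h.hz, map_mul]
  zx a b := (h.zx a b).map f
  zy a b := (h.zy a b).map f
  xy a b := by rw [← map_mul, h.xy, map_mul, map_mul]

theorem St3.heis (h : St3 X) {B : Type} [AddCommGroup B] [Module K B] (β : B →ₗ[K] R)
    {i j k : Fin 3} (h1 : i ≠ j) (h2 : j ≠ k) (h3 : i ≠ k) :
    Heis K (fun a => X i j (algebraMap K R a)) (fun b => X j k (β b)) fun b => X i k (β b) where
  hx a b := by rw [map_add, h.add]
  hy a b := by rw [map_add, h.add]
  hz a b := by rw [map_add, h.add]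
  zx a b := h.comm _ _ _ _ _ _ h3.symm h1
  zy a b := h.comm _ _ _ _ _ _ h2.symm h3
  xy a b := by
    rw [map_smul, Algebra.smul_def, ← h.st _ _ _ _ _ h1 h2 h3, commutatorElement_def]
    group

theorem St3.heis' (h : St3 X) {B : Type} [AddCommGroup B] [Module K B] (β : B →ₗ[K] R)
    {i j k : Fin 3} (h1 : i ≠ j) (h2 : j ≠ k) (h3 : i ≠ k) :
    Heis K (fun a => X j k (algebraMap K R a)) (fun b => X i j (β b))
      fun b => X i k (-β b) where
  hx a b := by rw [map_add, h.add]
  hy a b := by rw [map_add, h.add]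
  hz a b := by rw [map_add, neg_add, h.add]
  zx a b := h.comm _ _ _ _ _ _ h2.symm h3
  zy a b := h.comm _ _ _ _ _ _ h3.symm h1
  xy a b := by
    rw [map_smul, Algebra.smul_def, Algebra.commutes, h.neg, ← h.st _ _ _ _ _ h1 h2 h3,
      commutatorElement_def]
    group

/-- Three finite families which generate the group and pairwise form Heisenberg triples. -/
structure Tri (K : Type) [Field K] (B : Type) [AddCommGroup B] [Module K B] (G : Type)
    [Group G] where
  x : K → G
  y : K → G
  z : B → G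
  xy : K → G
  yz : B → G
  xz : B → G
  h1 : Heis K x y xy
  h2 : Heis K y z yz
  h3 : Heis K x z xz
  gen : ∀ N : Subgroup G, (∀ a, x a ∈ N) → (∀ a, y a ∈ N) → (∀ a, z a ∈ N) → N = ⊤

theorem St3.tri (h : St3 X) {ι : Type} [Fintype ι] (γ : ι → R)
    (hγ : Algebra.adjoin K (Set.range γ) = ⊤)
    (hX : ∀ N : Subgroup G, (∀ i j r, X i j r ∈ N) → N = ⊤) :
    Nonempty (Tri K (Option ι → K) G) := by
  classical
  let β : (Option ι → K) →ₗ[K] R := Fintype.linearCombination K fun o => o.elim 1 γ
  refine ⟨⟨_, _, _, _, _, _, h.heis (Algebra.linearMap K R) (i := 0) (j := 1) (k := 2) (by decide)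
    (by decide) (by decide), h.heis β (i := 1) (j := 2) (k := 0) (by decide) (by decide)
    (by decide), h.heis' β (i := 2) (j := 0) (k := 1) (by decide) (by decide) (by decide),
    fun N h1 h2 h3 => hX N fun i j r => h.gen γ hγ (by simpa using h1 1) (by simpa using h2 1)
      (fun a => ?_) (fun l => ?_) r i j⟩⟩
  · have := h3 (Pi.single none a)
    rwa [Fintype.linearCombination_apply_single, Option.elim_none, ← Algebra.algebraMap_eq_smul_one]
      at this
  · have := h3 (Pi.single (some l) 1)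
    rwa [Fintype.linearCombination_apply_single, Option.elim_some, one_smul] at this

theorem Tri.fg [Finite K] {B : Type} [AddCommGroup B] [Module K B] [Finite B] (t : Tri K B G) :
    Group.FG G := by
  refine Group.fg_iff.2 ⟨Set.range t.x ∪ Set.range t.y ∪ Set.range t.z, t.gen _
    (fun a => Subgroup.subset_closure (by simp)) (fun a => Subgroup.subset_closure (by simp))
    (fun a => Subgroup.subset_closure (by simp)), Set.toFinite _⟩

end Pool.Agent.Work.MP_d2e081_al
end

-- merged part: Pool.Agent.Work.MP_d2e081_al.Tree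
section
/-! Fixed points on trees: centres of finite sets and medians. -/

set_option autoImplicit false

namespace Pool.Agent.Work.MP_d2e081_al

open SimpleGraph

variable {V : Type} {T : SimpleGraph V}

theorem tr_step (hT : T.IsTree) {a m : V} (h : a ≠ m) :
    ∃ u, T.Adj m u ∧ T.dist a u + 1 = T.dist a m := by
  obtain ⟨p, hp⟩ := hT.connected.exists_walk_length_eq_dist m a
  cases p with
  | nil => exact absurd rfl h
  | @cons _ u _ h1 q =>
    have h2 := T.dist_le q
    have h3 := hT.dist_eq_dist_add_one_of_adj a h1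
    rw [Walk.length_cons, T.dist_comm] at hp
    rw [T.dist_comm] at h2
    exact ⟨u, h1, by omega⟩

theorem tr_uniq (hT : T.IsTree) {a m u w : V} (hu : T.Adj m u) (hw : T.Adj m w)
    (h1 : T.dist a u < T.dist a m) (h2 : T.dist a w < T.dist a m) : u = w := by
  obtain ⟨p, hp⟩ := hT.connected.exists_walk_length_eq_dist a u
  obtain ⟨q, hq⟩ := hT.connected.exists_walk_length_eq_dist a w
  have h3 := hT.dist_eq_dist_add_one_of_adj a hu
  have h4 := hT.dist_eq_dist_add_one_of_adj a hw
  have h5 := (p.concat hu.symm).isPath_of_length_eq_dist (by rw [Walk.length_concat]; omega)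
  have h6 := (q.concat hw.symm).isPath_of_length_eq_dist (by rw [Walk.length_concat]; omega)
  have h7 := congrArg (fun r : T.Path a m => r.1.penultimate)
    ((hT.isAcyclic.subsingleton_path a m).elim ⟨_, h5⟩ ⟨_, h6⟩)
  simpa using h7

theorem tr_cross (hT : T.IsTree) {a z : V} (k : ℕ) : ∀ m u, T.Adj m u → T.dist a u < T.dist a m →
    T.dist z m < T.dist z u → T.dist z m = k → T.dist a z = T.dist a m + k := by
  induction k with
  | zero =>
    intro m u _ _ _ h
    rw [hT.connected.dist_eq_zero_iff.1 h, add_zero]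
  | succ k ih =>
    intro m u h1 h2 h3 h4
    obtain ⟨m', h5, h6⟩ := tr_step hT (a := z) (m := m) (by
      rintro rfl
      simp at h4)
    have h7 := hT.dist_eq_dist_add_one_of_adj a h5
    have h8 : ¬ T.dist a m' < T.dist a m := fun h => by
      rw [tr_uniq hT h5 h1 h h2] at h6
      omega
    have := ih m' m h5.symm (by omega) (by omega) (by omega)
    omega

variable {G : Type} [Group G] [MulAction G V]

theorem tr_dist (hT : T.IsTree) (act : ∀ g : G, ∀ x y : V, T.Adj x y → T.Adj (g • x) (g • y))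
    (g : G) (x y : V) : T.dist (g • x) (g • y) = T.dist x y := by
  have h : ∀ (g : G) (x y : V), T.dist (g • x) (g • y) ≤ T.dist x y := fun g x y => by
    obtain ⟨p, hp⟩ := hT.connected.exists_walk_length_eq_dist x y
    have := T.dist_le (p.map (⟨fun v => g • v, fun h => act g _ _ h⟩ : T →g T))
    rwa [Walk.length_map, hp] at this
  refine le_antisymm (h g x y) ?_
  have := h g⁻¹ (g • x) (g • y)
  rwa [inv_smul_smul, inv_smul_smul] at this

theorem tr_centre (hT : T.IsTree) (act : ∀ g : G, ∀ x y : V, T.Adj x y → T.Adj (g • x) (g • y))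
    (ninv : ∀ g : G, ∀ x y : V, T.Adj x y → ¬ (g • x = y ∧ g • y = x)) {ι : Type} [Finite ι]
    [Nonempty ι] (A : ι → V) :
    ∃ m : V, ∀ g : G, (∀ i, ∃ j, g⁻¹ • A i = A j) → g • m = m := by
  classical
  have hex : ∃ r, ∃ m, ∀ i, T.dist (A i) m ≤ r := by
    obtain ⟨i⟩ := ‹Nonempty ι›
    obtain ⟨j, hj⟩ := Finite.exists_max fun j => T.dist (A j) (A i)
    exact ⟨_, A i, hj⟩
  obtain ⟨m, hm⟩ := Nat.find_spec hex
  have hmin : ∀ r u, (∀ i, T.dist (A i) u ≤ r) → Nat.find hex ≤ r := fun r u h =>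
    Nat.find_min' hex ⟨u, h⟩
  generalize Nat.find hex = r at hm hmin
  have h1 : ∀ m m', (∀ i, T.dist (A i) m ≤ r) → (∀ i, T.dist (A i) m' ≤ r) → T.dist m' m ≤ 1 := by
    intro m m' a b
    by_contra hc
    obtain ⟨u, h2, h3⟩ := tr_step hT (a := m') (m := m) (by
      rintro rfl
      simp at hc)
    obtain ⟨i0⟩ := ‹Nonempty ι›
    have h4 : ∀ i, T.dist (A i) u + 1 ≤ r := fun i => by
      have h5 := hT.dist_eq_dist_add_one_of_adj (A i) h2
      have h6 := a i
      have h7 := b i
      by_cases h8 : T.dist (A i) m < T.dist (A i) u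
      · have := tr_cross hT (a := m') _ m u h2 (by omega) h8 rfl
        rw [T.dist_comm] at this
        omega
      · omega
    have := hmin (r - 1) u fun i => by have := h4 i; omega
    have := h4 i0
    omega
  have h2 : ∀ (g : G) m, (∀ i, ∃ j, g⁻¹ • A i = A j) → (∀ i, T.dist (A i) m ≤ r) →
      ∀ i, T.dist (A i) (g • m) ≤ r := fun g m hg a i => by
    obtain ⟨j, hj⟩ := hg i
    rw [← tr_dist hT act g⁻¹, inv_smul_smul, hj]
    exact a j
  refine ⟨m, fun g hg => ?_⟩
  by_contra hc
  have a1 := h2 g m hg hm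
  have a2 := h2 g _ hg a1
  have b1 := h1 _ _ a1 hm
  have b2 := h1 _ _ a2 hm
  have b3 := hT.connected.pos_dist_of_ne (Ne.symm hc)
  have c1 : T.Adj m (g • m) := T.dist_eq_one_iff_adj.1 (by omega)
  have c2 := hT.dist_ne_of_adj m (act g _ _ c1)
  exact ninv g _ _ c1 ⟨rfl, (hT.connected.dist_eq_zero_iff.1 (by omega)).symm⟩

theorem tr_median (hT : T.IsTree) (act : ∀ g : G, ∀ x y : V, T.Adj x y → T.Adj (g • x) (g • y))
    {a b c m : V}
    (hm : ∀ u, T.dist a m + T.dist b m + T.dist c m ≤ T.dist a u + T.dist b u + T.dist c u)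
    {g : G} (ha : g • a = a) (hb : g • b = b) : g • m = m := by
  by_contra hc
  have key : ∀ a, g • a = a → ∃ u, T.Adj m u ∧ T.dist a u + 1 = T.dist a m ∧
      T.dist (g • m) u < T.dist (g • m) m := fun a ha => by
    obtain ⟨u, h1, h2⟩ := tr_step hT (a := a) (m := m) (by
      rintro rfl
      exact hc ha)
    refine ⟨u, h1, h2, ?_⟩
    have h3 := hT.dist_ne_of_adj (g • m) h1
    by_contra h4
    have h5 := tr_cross hT (a := a) (z := g • m) _ m u h1 (by omega) (by omega) rfl
    have h6 := tr_dist hT act g a m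
    have h7 := hT.connected.pos_dist_of_ne hc
    rw [ha] at h6
    omega
  obtain ⟨u, u1, u2, u3⟩ := key a ha
  obtain ⟨w, w1, w2, w3⟩ := key b hb
  obtain rfl := tr_uniq hT u1 w1 u3 w3
  have h1 := hT.dist_eq_dist_add_one_of_adj c u1
  have h2 := hm u
  omega

variable {K : Type} [Field K] [Finite K] {B : Type} [AddCommGroup B] [Module K B] [Finite B]

theorem Heis.fix {x : K → G} {y z : B → G} (h : Heis K x y z) (hT : T.IsTree)
    (act : ∀ g : G, ∀ x y : V, T.Adj x y → T.Adj (g • x) (g • y))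
    (ninv : ∀ g : G, ∀ x y : V, T.Adj x y → ¬ (g • x = y ∧ g • y = x)) :
    ∃ m : V, (∀ a, x a • m = m) ∧ ∀ b, y b • m = m := by
  obtain ⟨o⟩ := hT.connected.nonempty
  obtain ⟨m, hm⟩ := tr_centre hT act ninv
    fun p : K × B × B => (z p.2.2 * (y p.2.1 * x p.1)) • o
  refine ⟨m, fun a => ?_, fun b => ?_⟩
  · refine inv_smul_eq_iff.1 (hm _ fun p => ⟨(a + p.1, p.2.1, p.2.2 + a • p.2.1), ?_⟩) |>.symm
    rw [inv_inv, ← mul_smul, ← mul_assoc, ← (h.zx a _).eq, mul_assoc, ← mul_assoc (x a), h.xy,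
      h.hz, h.hx]
    simp only [mul_assoc]
  · refine inv_smul_eq_iff.1 (hm _ fun p => ⟨(p.1, b + p.2.1, p.2.2), ?_⟩) |>.symm
    rw [inv_inv, ← mul_smul, ← mul_assoc, ← (h.zy b _).eq, h.hy]
    simp only [mul_assoc]

theorem Tri.hasFA (t : Tri K B G) : HasFA G := by
  intro V _ T hT act ninv
  obtain ⟨a, a1, a2⟩ := t.h1.fix hT act ninv
  obtain ⟨b, b1, b2⟩ := t.h2.fix hT act ninv
  obtain ⟨c, c1, c2⟩ := t.h3.fix hT act ninv
  obtain ⟨m, hm⟩ := exists_minimalFor_of_wellFoundedLT (fun _ : V => True)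
    (fun u => T.dist a u + T.dist b u + T.dist c u) ⟨a, trivial⟩
  have h : ∀ u, T.dist a m + T.dist b m + T.dist c m ≤ T.dist a u + T.dist b u + T.dist c u :=
    fun u => hm.le trivial
  have := t.gen (MulAction.stabilizer G m)
    (fun i => tr_median hT act (a := a) (b := c) (c := b) (fun u => by have := h u; omega)
      (a1 i) (c1 i))
    (fun i => tr_median hT act h (a2 i) (b1 i))
    (fun i => tr_median hT act (a := b) (b := c) (c := a) (fun u => by have := h u; omega)
      (b2 i) (c2 i))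
  exact ⟨m, fun g => (show g ∈ MulAction.stabilizer G m from this ▸ Subgroup.mem_top g)⟩

end Pool.Agent.Work.MP_d2e081_al
end

-- merged part: Pool.Agent.Work.MP_d2e081_al.Lin
section
/-! Elementary maps of `U³`, transitivity on independent families, distance from scalars. -/

set_option autoImplicit false

namespace Pool.Agent.Work.MP_d2e081_al

open Module LinearMap

open scoped commutatorElement

variable {K U : Type} [Field K] [AddCommGroup U] [Module K U]

/-- The block map with one entry. -/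
def el (i j : Fin 3) (r : End K U) : End K (Fin 3 → U) :=
  single K (fun _ => U) i ∘ₗ r ∘ₗ proj j

theorem el_apply (i j : Fin 3) (r : End K U) (v : Fin 3 → U) :
    el i j r v = Pi.single i (r (v j)) := rfl

theorem el_mul (i j k : Fin 3) (r s : End K U) : el i j r * el j k s = el i k (r * s) := by
  refine LinearMap.ext fun v => ?_
  simp [el_apply]

theorem el_mul_ne (i : Fin 3) {j k : Fin 3} (l : Fin 3) (h : j ≠ k) (r s : End K U) :
    el i j r * el k l s = 0 := by
  refine LinearMap.ext fun v => ?_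
  simp [el_apply, h]

theorem el_add (i j : Fin 3) (r s : End K U) : el i j (r + s) = el i j r + el i j s := by
  refine LinearMap.ext fun v => ?_
  simp [el_apply, Pi.single_add]

/-- The elementary automorphism. -/
def xe (i j : Fin 3) (r : End K U) : (End K (Fin 3 → U))ˣ :=
  if h : i = j then 1 else
    ⟨1 + el i j r, 1 - el i j r,
      by rw [add_mul, mul_sub, mul_sub, el_mul_ne i j (Ne.symm h)]; simp,
      by rw [sub_mul, mul_add, mul_add, el_mul_ne i j (Ne.symm h)]; simp⟩

theorem xe_val {i j : Fin 3} (h : i ≠ j) (r : End K U) : (xe i j r).val = 1 + el i j r := by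
  rw [xe, dif_neg h]

theorem xe_apply {i j : Fin 3} (h : i ≠ j) (r : End K U) (v : Fin 3 → U) :
    (xe i j r).val v = v + Pi.single i (r (v j)) := by
  rw [xe_val h]
  rfl

theorem xe_diag (i : Fin 3) (r : End K U) : xe i i r = 1 := dif_pos rfl

theorem xe_st : St3 (xe (K := K) (U := U)) where
  add i j r s := by
    by_cases h : i = j
    · rw [h, xe_diag, xe_diag, xe_diag, one_mul]
    · ext1
      rw [Units.val_mul, xe_val h, xe_val h, xe_val h, el_add, add_mul, mul_add, mul_add,
        el_mul_ne i j (Ne.symm h)]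
      simp only [one_mul, mul_one, add_zero]
      abel
  comm i j k l r s h1 h2 := by
    by_cases h : i = j
    · rw [h, xe_diag]
      exact Commute.one_left _
    by_cases h' : k = l
    · rw [h', xe_diag]
      exact Commute.one_right _
    refine Units.ext ?_
    rw [Units.val_mul, Units.val_mul, xe_val h, xe_val h']
    simp only [add_mul, mul_add, one_mul, mul_one, el_mul_ne i l h1, el_mul_ne k j h2.symm]
    abel
  st i j k r s h1 h2 h3 := by
    rw [commutatorElement_def, mul_inv_eq_iff_eq_mul, mul_inv_eq_iff_eq_mul]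
    ext1
    simp only [Units.val_mul, xe_val h1, xe_val h2, xe_val h3, add_mul, mul_add, one_mul, mul_one,
      el_mul, el_mul_ne i k h2.symm, el_mul_ne _ j h3.symm, add_zero]
    abel
  diag := xe_diag

variable (K U) in
/-- The elementary group. -/
def EL : Subgroup (End K (Fin 3 → U))ˣ := Subgroup.closure {g | ∃ i j r, g = xe i j r}

theorem xe_mem (i j : Fin 3) (r : End K U) : xe i j r ∈ EL K U :=
  Subgroup.subset_closure ⟨i, j, r, rfl⟩

variable [FiniteDimensional K U]

theorem ext_inj {W U' : Type} [AddCommGroup W] [Module K W] [FiniteDimensional K W]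
    [AddCommGroup U'] [Module K U'] (f : W →ₗ[K] U) (g : W →ₗ[K] U')
    (h : ∀ w, f w = 0 → g w = 0 → w = 0) (hd : finrank K W ≤ finrank K U) :
    ∃ γ : U' →ₗ[K] U, ∀ w, f w + γ (g w) = 0 → w = 0 := by
  obtain ⟨C, hC⟩ := (range f).exists_isCompl
  have h1 := Submodule.finrank_add_eq_of_isCompl hC
  have h2 := f.finrank_range_add_finrank_ker
  obtain ⟨j, hj⟩ := (finrank_le_iff_exists_linearMap (R := K) (M := ker f) (M' := C)).1 (by omega)
  obtain ⟨l, hl⟩ := (g ∘ₗ (ker f).subtype).exists_leftInverse_of_injective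
    (ker_eq_bot'.2 fun w hw => Subtype.ext (h _ w.2 hw))
  refine ⟨C.subtype ∘ₗ j ∘ₗ l, fun w hw => ?_⟩
  have h3 : f w = 0 := Submodule.disjoint_def.1 hC.disjoint _ (mem_range_self f w)
    (by rw [eq_neg_of_add_eq_zero_left hw]; exact C.neg_mem (j (l (g w))).2)
  have h4 : l (g w) = ⟨w, h3⟩ := LinearMap.congr_fun hl ⟨w, h3⟩
  rw [h3, zero_add] at hw
  have h5 : j (l (g w)) = j 0 := by
    rw [map_zero]
    exact Subtype.ext hw
  exact congrArg Subtype.val (h4.symm.trans (hj h5))

theorem normal_form {W : Type} [AddCommGroup W] [Module K W] [FiniteDimensional K W]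
    (E : W →ₗ[K] U) (hE : Function.Injective E) (u : W →ₗ[K] Fin 3 → U)
    (hu : Function.Injective u) : ∃ g ∈ EL K U, ∀ w, g.val (u w) = Pi.single 1 (E w) := by
  obtain ⟨γ, hγ⟩ := ext_inj (proj 0 ∘ₗ u) ((proj 1 ∘ₗ u).prod (proj 2 ∘ₗ u)) (fun w h1 h2 =>
    hu (by
      rw [map_zero]
      funext i
      fin_cases i
      exacts [h1, congrArg Prod.fst h2, congrArg Prod.snd h2]))
    (finrank_le_finrank_of_injective hE)
  let Y : W →ₗ[K] U := proj 0 ∘ₗ u + γ ∘ₗ (proj 1 ∘ₗ u).prod (proj 2 ∘ₗ u)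
  obtain ⟨l, hl⟩ := Y.exists_leftInverse_of_injective (ker_eq_bot'.2 hγ)
  obtain ⟨l', hl'⟩ := E.exists_leftInverse_of_injective (ker_eq_bot.2 hE)
  refine ⟨xe 0 1 (-Y ∘ₗ l') * xe 1 0 ((E - proj 1 ∘ₗ u) ∘ₗ l) * xe 2 0 (-(proj 2 ∘ₗ u) ∘ₗ l) *
    xe 0 1 (γ ∘ₗ inl K U U) * xe 0 2 (γ ∘ₗ inr K U U), by
      refine mul_mem (mul_mem (mul_mem (mul_mem ?_ ?_) ?_) ?_) ?_ <;> exact xe_mem _ _ _,
    fun w => ?_⟩
  have e1 : l (Y w) = w := LinearMap.congr_fun hl w
  have e2 : l' (E w) = w := LinearMap.congr_fun hl' w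
  have e3 : u w 0 + γ (0, u w 2) + γ (u w 1, 0) = Y w := by
    rw [add_assoc, ← map_add]
    simp [Y]
  simp only [Units.val_mul, End.mul_apply, xe_apply (show (0 : Fin 3) ≠ 1 by decide),
    xe_apply (show (0 : Fin 3) ≠ 2 by decide), xe_apply (show (1 : Fin 3) ≠ 0 by decide),
    xe_apply (show (2 : Fin 3) ≠ 0 by decide)]
  funext i
  fin_cases i <;> simp [e1, e2, e3]

/-- The elementary group is transitive on small independent families. -/
theorem EL_trans {I : Type} [Fintype I] (hI : Fintype.card I ≤ finrank K U)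
    {x y : I → Fin 3 → U} (hx : LinearIndependent K x) (hy : LinearIndependent K y) :
    ∃ g ∈ EL K U, ∀ i, g.val (x i) = y i := by
  classical
  obtain ⟨E, hE⟩ := (finrank_le_iff_exists_linearMap (R := K) (M := I → K) (M' := U)).1
    (by simpa using hI)
  obtain ⟨g, hg, h1⟩ := normal_form E hE _ hx.fintypeLinearCombination_injective
  obtain ⟨g', hg', h2⟩ := normal_form E hE _ hy.fintypeLinearCombination_injective
  refine ⟨g'⁻¹ * g, mul_mem (inv_mem hg') hg, fun i => ?_⟩
  have := (h1 (Pi.single i 1)).trans (h2 (Pi.single i 1)).symm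
  rw [Fintype.linearCombination_apply_single, Fintype.linearCombination_apply_single, one_smul,
    one_smul] at this
  rw [Units.val_mul, End.mul_apply, this, ← End.mul_apply, Units.inv_mul, End.one_apply]

end Pool.Agent.Work.MP_d2e081_al
end

-- merged part: Pool.Agent.Work.MP_d2e081_al.Free
section
/-! Distance from scalars and alternating products of conjugates. -/

set_option autoImplicit false

namespace Pool.Agent.Work.MP_d2e081_al

open Module LinearMap

variable {K V : Type} [Field K] [AddCommGroup V] [Module K V] [FiniteDimensional K V]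

/-- The automorphism differs from a unit scalar by a map of rank at most `C`. -/
def Near (C : ℕ) (g : (End K V)ˣ) : Prop :=
  ∃ l : K, l ≠ 0 ∧ ∃ S : Submodule K V, finrank K S ≤ C ∧ ∀ v, g.val v - l • v ∈ S

omit [FiniteDimensional K V] in
theorem Near.mono {C D : ℕ} {g : (End K V)ˣ} (h : Near C g) (hD : C ≤ D) : Near D g :=
  let ⟨l, hl, S, h1, h2⟩ := h
  ⟨l, hl, S, h1.trans hD, h2⟩

omit [FiniteDimensional K V] in
theorem Near.one (C : ℕ) : Near C (1 : (End K V)ˣ) :=
  ⟨1, one_ne_zero, ⊥, by simp, fun v => by simp⟩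

theorem Near.mul {C D : ℕ} {g h : (End K V)ˣ} (hg : Near C g) (hh : Near D h) :
    Near (C + D) (g * h) := by
  obtain ⟨l, hl, S, h1, h2⟩ := hg
  obtain ⟨m, hm, S', h3, h4⟩ := hh
  refine ⟨m * l, mul_ne_zero hm hl, S ⊔ S'.map g.val,
    (Submodule.finrank_add_le_finrank_add_finrank _ _).trans
      (add_le_add h1 ((Submodule.finrank_map_le _ _).trans h3)), fun v => ?_⟩
  have : (g * h).val v - (m * l) • v = m • (g.val v - l • v) + g.val (h.val v - m • v) := by
    rw [Units.val_mul, End.mul_apply, map_sub, map_smul, smul_sub, mul_smul]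
    abel
  rw [this]
  exact Submodule.add_mem_sup (S.smul_mem _ (h2 v)) (Submodule.mem_map_of_mem (h4 v))

theorem Near.inv {C : ℕ} {g : (End K V)ˣ} (hg : Near C g) : Near C g⁻¹ := by
  obtain ⟨l, hl, S, h1, h2⟩ := hg
  refine ⟨l⁻¹, inv_ne_zero hl, S.map g⁻¹.val, (Submodule.finrank_map_le _ _).trans h1, fun v => ?_⟩
  have : g⁻¹.val v - l⁻¹ • v = (-l⁻¹) • g⁻¹.val (g.val v - l • v) := by
    rw [map_sub, map_smul, ← End.mul_apply, Units.inv_mul, End.one_apply, smul_sub, smul_smul,
      neg_mul, inv_mul_cancel₀ hl, neg_smul, neg_smul, one_smul]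
    abel
  rw [this]
  exact Submodule.smul_mem _ _ (Submodule.mem_map_of_mem (h2 v))

theorem Near.conj {C : ℕ} {g : (End K V)ˣ} (hg : Near C g) (a : (End K V)ˣ) :
    Near C (a * g * a⁻¹) := by
  obtain ⟨l, hl, S, h1, h2⟩ := hg
  refine ⟨l, hl, S.map a.val, (Submodule.finrank_map_le _ _).trans h1, fun v => ?_⟩
  have : (a * g * a⁻¹).val v - l • v = a.val (g.val (a⁻¹.val v) - l • a⁻¹.val v) := by
    rw [map_sub, map_smul, ← End.mul_apply a.val a⁻¹.val, Units.mul_inv, End.one_apply]
    rfl
  rw [this]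
  exact Submodule.mem_map_of_mem (h2 _)

theorem far_pair {g : (End K V)ˣ} (S : Submodule K V) (hg : ¬ Near (finrank K S + 1) g) :
    ∃ x, x ∉ S ∧ ∀ l : K, g.val x - l • x ∉ S := by
  have top : ∀ T : Submodule K V, finrank K T ≤ finrank K S + 1 → ∃ z, z ∉ T := fun T hT => by
    by_contra h
    push Not at h
    exact hg ⟨1, one_ne_zero, T, hT, fun v => h _⟩
  by_contra h
  push Not at h
  obtain ⟨x, hx⟩ := top S (Nat.le_succ _)
  obtain ⟨l, hl⟩ := h x hx
  have hx0 : x ≠ 0 := fun e => hx (e ▸ S.zero_mem)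
  obtain ⟨z, hz⟩ := top (S ⊔ K ∙ x) ((Submodule.finrank_add_le_finrank_add_finrank _ _).trans
    (by rw [finrank_span_singleton hx0]))
  have k : ∀ y, y ∉ S ⊔ K ∙ x → g.val y - l • y ∈ S := fun y hy => by
    have hxs : x ∈ S ⊔ K ∙ x := Submodule.mem_sup_right (Submodule.mem_span_singleton_self x)
    obtain ⟨m, hm⟩ := h y fun e => hy (Submodule.mem_sup_left e)
    obtain ⟨n, hn⟩ := h (x + y) fun e =>
      hy ((Submodule.add_mem_iff_right _ hxs).1 (Submodule.mem_sup_left e))
    have h1 : (l - n) • x + (m - n) • y ∈ S := by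
      rw [show (l - n) • x + (m - n) • y = g.val (x + y) - n • (x + y) - (g.val x - l • x) -
        (g.val y - m • y) by rw [map_add]; module]
      exact S.sub_mem (S.sub_mem hn hl) hm
    have h2 : m = n := by
      by_contra e
      exact hy ((Submodule.smul_mem_iff _ (sub_ne_zero.2 e)).1 ((Submodule.add_mem_iff_right _
        (Submodule.smul_mem _ _ hxs)).1 (Submodule.mem_sup_left h1)))
    rw [h2, sub_self, zero_smul, add_zero] at h1
    have h3 : l = n := by
      by_contra e
      exact hx ((Submodule.smul_mem_iff _ (sub_ne_zero.2 e)).1 h1)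
    rwa [h3, ← h2]
  have k' : ∀ y, g.val y - l • y ∈ S := fun y => by
    by_cases hy : y ∈ S ⊔ K ∙ x
    · rw [show g.val y - l • y = g.val (y + z) - l • (y + z) - (g.val z - l • z) by
        rw [map_add]; module]
      exact S.sub_mem (k (y + z) fun e => hz ((Submodule.add_mem_iff_right _ hy).1 e)) (k z hz)
    · exact k y hy
  by_cases h0 : l = 0
  · have := k' (g⁻¹.val x)
    rw [h0, zero_smul, sub_zero, ← End.mul_apply, Units.mul_inv, End.one_apply] at this
    exact hx this
  · exact hg ⟨l, h0, S, Nat.le_succ _, k'⟩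

theorem far_family {D : ℕ} (I : Type) [Finite I] : ∀ h : I → (End K V)ˣ, (∀ i, ¬ Near D (h i)) →
    2 * Nat.card I ≤ D →
      ∃ x : I → V, LinearIndependent K (Sum.elim x fun i => (h i).val (x i)) := by
  induction I using Finite.induction_empty_option with
  | @of_equiv α β e ih =>
    intro h h1 h2
    obtain ⟨x, hx⟩ := ih (h ∘ e) (fun i => h1 _) (by rwa [Nat.card_congr e])
    refine ⟨x ∘ e.symm, ?_⟩
    refine (congrArg (fun v : _ → V => LinearIndependent K v) (funext ?_)).mp (hx.comp _ (e.sumCongr e).symm.injective)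
    rintro (i | i) <;> simp
  | h_empty => exact fun _ _ _ => ⟨PEmpty.elim, linearIndependent_empty_type⟩
  | @h_option α _ ih =>
    intro h h1 h2
    rw [Finite.card_option] at h2
    obtain ⟨x, hx⟩ := ih (h ∘ some) (fun i => h1 _) (by omega)
    have hr := finrank_span_eq_card hx
    rw [Fintype.card_sum, ← Nat.card_eq_fintype_card] at hr
    obtain ⟨y, hy, hy'⟩ := far_pair _ fun e => h1 none (e.mono (by rw [hr]; omega))
    have a := hx.option hy
    have b := a.option (x := (h none).val y) (by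
      rw [show Set.range (fun o : Option (α ⊕ α) => Option.casesOn' o y
          (Sum.elim x fun i => ((h ∘ some) i).val (x i))) =
          insert y (Set.range (Sum.elim x fun i => ((h ∘ some) i).val (x i))) from
        Option.range_eq _, Submodule.mem_span_insert]
      rintro ⟨c, z, hz, e⟩
      exact hy' c (by rwa [e, add_sub_cancel_left]))
    refine ⟨fun o => o.elim y x, ?_⟩
    have := b.comp (Sum.elim (fun o : Option α => some (o.map Sum.inl))
      fun o : Option α => o.map fun i => some (Sum.inr i)) (by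
        rintro ((_ | i) | (_ | i)) ((_ | j) | (_ | j)) <;> simp)
    refine (congrArg (fun v : _ → V => LinearIndependent K v) (funext ?_)).mp this
    rintro ((_ | i) | (_ | i)) <;> rfl

omit [FiniteDimensional K V] in
theorem prod_chain : ∀ (L : ℕ) (f : Fin L → (End K V)ˣ) (m : Fin (L + 1) → V),
    (∀ k, (f k).val (m k.succ) = m k.castSucc) →
      (List.ofFn f).prod.val (m (Fin.last L)) = m 0
  | 0, _, _, _ => rfl
  | L + 1, f, m, h => by
    rw [List.ofFn_succ, List.prod_cons, Units.val_mul, End.mul_apply]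
    exact (congrArg _ (prod_chain L (fun i => f i.succ) (fun i => m i.succ) fun k => h k.succ)).trans
      (h 0)

variable {U : Type} [AddCommGroup U] [Module K U] [FiniteDimensional K U]

theorem not_near_xe {C : ℕ} (hC : C < finrank K U) : ¬ Near C (xe 0 1 (1 : End K U)) := by
  rintro ⟨l, -, S, h1, h2⟩
  have : S.map (proj 0 : (Fin 3 → U) →ₗ[K] U) = ⊤ := top_unique fun u _ =>
    ⟨_, h2 (Pi.single 1 u), by simp [xe_apply]⟩
  have h3 := Submodule.finrank_map_le (proj 0 : (Fin 3 → U) →ₗ[K] U) S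
  rw [this, finrank_top] at h3
  omega

/-- An alternating product of suitable conjugates of elements far from scalars is far from
scalars. -/
theorem far_word {C L : ℕ} (hL : L ≠ 0) (b : Fin L → Bool)
    (hb : ∀ k l : Fin L, k.val + 1 = l.val → b k ≠ b l) (h : Fin L → (End K (Fin 3 → U))ˣ)
    (hh : ∀ k, ¬ Near (2 * ((C + 1) * L)) (h k)) (hU : 2 * ((C + 1) * L) ≤ finrank K U) :
    ∃ ι : Bool → (End K (Fin 3 → U))ˣ, (∀ i, ι i ∈ EL K U) ∧
      ¬ Near C (List.ofFn fun k => ι (b k) * h k * (ι (b k))⁻¹).prod := by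
  classical
  obtain ⟨x, hx⟩ := far_family (Fin (C + 1) × Fin L) (fun p => h p.2) (fun p => hh _) (by simp)
  obtain ⟨m0, hm0⟩ := exists_linearIndependent_of_le_finrank (R := K) (M := Fin 3 → U)
    (n := (C + 1) * (L + 1)) (by
      rw [finrank_pi_fintype, Fin.sum_univ_three]
      nlinarith [Nat.pos_of_ne_zero hL])
  have hm := hm0.comp _ finProdFinEquiv.injective
  set m := m0 ∘ finProdFinEquiv
  have key : ∀ i : Bool, ∃ g ∈ EL K U, ∀ c k, b k = i → g.val (x (c, k)) = m (c, k.succ) ∧
      g.val ((h k).val (x (c, k))) = m (c, k.castSucc) := fun i => by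
    let J := {p : Fin (C + 1) × Fin L // b p.2 = i}
    obtain ⟨g, hg, e⟩ := EL_trans (I := J ⊕ J) (by
        have : Fintype.card J ≤ (C + 1) * L := (Fintype.card_subtype_le _).trans (by simp)
        rw [Fintype.card_sum]
        omega)
      (hx.comp _ (Subtype.val_injective.sumMap Subtype.val_injective))
      (hm.comp (Sum.elim (fun p => (p.1.1, p.1.2.succ)) fun p => (p.1.1, p.1.2.castSucc)) (by
        rintro (⟨⟨c, k⟩, p⟩ | ⟨⟨c, k⟩, p⟩) (⟨⟨c', k'⟩, p'⟩ | ⟨⟨c', k'⟩, p'⟩) e
        · simpa [J] using e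
        · exact absurd (p.trans p'.symm) (hb k k' (congrArg (fun q => q.2.val) e))
        · exact absurd (p'.trans p.symm) (hb k' k (congrArg (fun q => q.2.val) e).symm)
        · simpa [J] using e))
    exact ⟨g, hg, fun c k hk => ⟨e (Sum.inl ⟨(c, k), hk⟩), e (Sum.inr ⟨(c, k), hk⟩)⟩⟩
  choose ι h1 h2 using key
  refine ⟨ι, h1, ?_⟩
  rintro ⟨l, -, S, h3, h4⟩
  have h5 : ∀ c, m (c, 0) - l • m (c, Fin.last L) ∈ S := fun c => by
    rw [← prod_chain L (fun k => ι (b k) * h k * (ι (b k))⁻¹) (fun j => m (c, j)) fun k => by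
      obtain ⟨e1, e2⟩ := h2 _ c k rfl
      rw [← e1, ← e2, Units.val_mul, Units.val_mul, End.mul_apply, End.mul_apply,
        ← End.mul_apply _ (ι (b k)).val, Units.inv_mul, End.one_apply]]
    exact h4 _
  obtain ⟨r, hr⟩ := (Fintype.linearCombination K m).exists_leftInverse_of_injective
    (ker_eq_bot.2 hm.fintypeLinearCombination_injective)
  have h6 : ∀ p, r (m p) = Pi.single p 1 := fun p => by
    simpa using LinearMap.congr_fun hr (Pi.single p 1)
  let ρ : (Fin 3 → U) →ₗ[K] Fin (C + 1) → K := funLeft K K (fun c => (c, 0)) ∘ₗ r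
  have h7 : S.map ρ = ⊤ := by
    rw [eq_top_iff, ← (Pi.basisFun K (Fin (C + 1))).span_eq, Submodule.span_le]
    rintro _ ⟨c, rfl⟩
    refine ⟨_, h5 c, funext fun c' => ?_⟩
    have : (0 : Fin (L + 1)) ≠ Fin.last L := fun e => hL (congrArg Fin.val e).symm
    simp [ρ, h6, Pi.single_apply, this, funLeft_apply]
  have h8 := Submodule.finrank_map_le ρ S
  rw [h7, finrank_top, finrank_fin_fun] at h8
  omega

end Pool.Agent.Work.MP_d2e081_al
end
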