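import Mathlib
import Pool.Agent.Work.MP_d2e081_al.Tree
import Pool.Agent.Work.MP_d2e081_al.NotT

-- merged part: Pool.Agent.Work.MP_d2e081_al.Ring
section
/-! A finitely generated algebra of sequences of matrices. -/

set_option autoImplicit false

namespace Pool.Agent.Work.MP_d2e081_al

open Module

variable (K : Type) [Field K]

/-- The index set of level `n`. -/
abbrev Ix (n : ℕ) : Type := ZMod (2 ^ (n + 1))

/-- The space of level `n`. -/
abbrev Un (n : ℕ) : Type := Ix n → K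

/-- The product algebra. -/
abbrev PP : Type := ∀ n, End K (Un K n)

/-- The shifts. -/
def sh (k : ℤ) : PP K := fun n => LinearMap.funLeft K K fun j : Ix n => j + k

/-- The diagonal operators. -/
def dg (f : ∀ n, Un K n) : PP K := fun n => LinearMap.mulLeft K (f n)

/-- The number of powers of two dividing `a`. -/
def Wn (n : ℕ) (a : ℤ) : K := ∑ k ∈ Finset.range (n + 1), if 2 ^ (k + 1) ∣ a then 1 else 0

/-- The period doubling function. -/
def ww (n : ℕ) (j : Ix n) : K := Wn K n j.val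

/-- The generators. -/
def gen : Fin 4 → PP K := ![sh K 1, sh K (-1), dg K (ww K), dg K fun _ => Pi.single 0 1]

/-- The algebra. -/
def RR : Subalgebra K (PP K) := Algebra.adjoin K (Set.range (gen K))

/-- The central idempotents. -/
def eps (s : ℕ) : PP K := fun n => if n < s then 1 else 0

variable {K}

theorem sh_add (k l : ℤ) : sh K (k + l) = sh K k * sh K l := by
  funext n
  refine LinearMap.ext fun v => funext fun j => ?_
  simp [sh, LinearMap.funLeft_apply, add_assoc]

theorem sh_zero : sh K 0 = 1 := by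
  funext n
  refine LinearMap.ext fun v => funext fun j => ?_
  simp [sh, LinearMap.funLeft_apply]

theorem gen_mem (i : Fin 4) : gen K i ∈ RR K := Algebra.subset_adjoin ⟨i, rfl⟩

theorem sh_mem (k : ℤ) : sh K k ∈ RR K := by
  induction k using Int.induction_on with
  | zero => exact sh_zero (K := K) ▸ one_mem _
  | succ i h =>
    rw [sh_add]
    exact mul_mem h (gen_mem 0)
  | pred i h =>
    rw [sub_eq_add_neg, sh_add]
    exact mul_mem h (gen_mem 1)

theorem sh_dg (k : ℤ) (f : ∀ n, Un K n) :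
    sh K k * dg K f * sh K (-k) = dg K fun n j => f n (j + k) := by
  funext n
  refine LinearMap.ext fun v => funext fun j => ?_
  simp [sh, dg, LinearMap.funLeft_apply]

theorem dg_mul (f g : ∀ n, Un K n) : dg K (f * g) = dg K f * dg K g := by
  funext n
  refine LinearMap.ext fun v => funext fun j => ?_
  simp [dg]

theorem dg_sub (f g : ∀ n, Un K n) : dg K (f - g) = dg K f - dg K g := by
  funext n
  refine LinearMap.ext fun v => funext fun j => ?_
  simp [dg, sub_mul]

theorem dg_one : dg K 1 = 1 := by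
  funext n
  refine LinearMap.ext fun v => funext fun j => ?_
  simp [dg]

theorem ww_cast (n : ℕ) (a : ℤ) : ww K n a = Wn K n a := by
  rw [ww, Wn, Wn, ZMod.val_intCast]
  exact Finset.sum_congr rfl fun k hk => if_congr (EuclideanDomain.dvd_mod_iff
    (by push_cast; exact pow_dvd_pow _ (Nat.succ_le_succ (Finset.mem_range_succ_iff.1 hk)))) rfl rfl

theorem Wn_sub {n s : ℕ} (hs : s ≤ n) {t M : ℤ} (h1 : 2 ^ s ∣ M) (h2 : ¬ 2 ^ (s + 1) ∣ M)
    (ht : 2 ^ (s + 2) ∣ t - 2 ^ (s + 1)) : Wn K n t - Wn K n (t + M) = 1 := by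
  have h3 : 2 ^ (s + 1) ∣ t := (dvd_sub_self_right.1 ((pow_dvd_pow _ (by omega)).trans ht))
  have h4 : ¬ 2 ^ (s + 1) ∣ t + M := fun h => h2 ((dvd_add_right h3).1 h)
  rw [Wn, Wn, ← Finset.sum_sub_distrib, Finset.sum_eq_single s, if_pos h3, if_neg h4, sub_zero]
  · intro k _ hk
    rcases lt_or_gt_of_ne hk with hk | hk
    · have h5 : 2 ^ (k + 1) ∣ t := (pow_dvd_pow _ (by omega)).trans h3
      rw [if_pos h5, if_pos (h5.add ((pow_dvd_pow _ (by omega)).trans h1)), sub_self]
    · rw [if_neg, if_neg fun h => h4 ((pow_dvd_pow _ (by omega)).trans h), sub_self]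
      intro h
      have := (dvd_sub_right ((pow_dvd_pow _ (by omega)).trans h)).1 ht
      have := (pow_dvd_pow_iff (by norm_num) (by decide)).1 this
      omega
  · intro h
    exact absurd (Finset.mem_range_succ_iff.2 hs) h

theorem prod_eps {s : ℕ} {M : ℤ} (h1 : 2 ^ s ∣ M) (h2 : ¬ 2 ^ (s + 1) ∣ M) :
    dg K (∏ i ∈ Finset.Ico (0 : ℤ) (2 ^ (s + 2)),
      (1 - ((fun n j => ww K n (j + i)) - fun n j => ww K n (j + (i + M : ℤ))))) = eps K s := by
  funext n
  refine LinearMap.ext fun v => funext fun j => ?_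
  simp only [dg, LinearMap.mulLeft_apply, Pi.mul_apply, Finset.prod_apply, Pi.sub_apply,
    Pi.one_apply, eps]
  split_ifs with h
  · have : (M : Ix n) = 0 := (ZMod.intCast_zmod_eq_zero_iff_dvd _ _).2
      (by push_cast; exact (pow_dvd_pow _ h).trans h1)
    simp [this]
  · obtain ⟨a, rfl⟩ := ZMod.intCast_surjective j
    have hp : (0 : ℤ) < 2 ^ (s + 2) := by positivity
    rw [Finset.prod_eq_zero (i := (2 ^ (s + 1) - a) % 2 ^ (s + 2))
      (Finset.mem_Ico.2 ⟨Int.emod_nonneg _ hp.ne', Int.emod_lt_of_pos _ hp⟩), zero_mul]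
    · rfl
    · rw [← Int.cast_add, ← Int.cast_add, ww_cast, ww_cast, ← add_assoc,
        Wn_sub (not_lt.1 h) h1 h2, sub_self]
      rw [Int.emod_def]
      exact ⟨-((2 ^ (s + 1) - a) / 2 ^ (s + 2)), by ring⟩

theorem ring_id {A : Type} [Ring A] (a b c x y : A) (e : x * y = 1) :
    a * b * c - x * a * b * (c * y) = a * b * c * ((x - 1) * y) + (x - 1) * -(a * b * c * y) := by
  rw [sub_mul, e]
  noncomm_ring

/-- A two-sided ideal containing a nontrivial shift minus one contains a tail idempotent. -/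
theorem ideal_eps {I : PP K → Prop} (h0 : I 0) (hadd : ∀ a b, I a → I b → I (a + b))
    (hl : ∀ r ∈ RR K, ∀ a, I a → I (r * a)) (hr : ∀ r ∈ RR K, ∀ a, I a → I (a * r)) {s : ℕ} {M : ℤ}
    (h1 : 2 ^ s ∣ M) (h2 : ¬ 2 ^ (s + 1) ∣ M) (hM : I (sh K M - 1)) : I (1 - eps K s) := by
  rw [← prod_eps h1 h2]
  refine (Finset.prod_induction _ (fun f => dg K f ∈ RR K ∧ I (1 - dg K f)) ?_ ?_ ?_).2
  · rintro a b ⟨ha, ha'⟩ ⟨hb, hb'⟩
    rw [dg_mul]
    refine ⟨mul_mem ha hb, ?_⟩
    rw [show 1 - dg K a * dg K b = 1 - dg K a + dg K a * (1 - dg K b) by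
      rw [mul_sub, mul_one, sub_add_sub_cancel]]
    exact hadd _ _ ha' (hl _ ha _ hb')
  · rw [dg_one, sub_self]
    exact ⟨one_mem _, h0⟩
  · intro i _
    have hw : ∀ k, sh K k * dg K (ww K) * sh K (-k) ∈ RR K := fun k =>
      mul_mem (mul_mem (sh_mem _) (gen_mem 2)) (sh_mem _)
    rw [dg_sub, dg_sub, dg_one, ← sh_dg, ← sh_dg, sub_sub_cancel]
    refine ⟨sub_mem (one_mem _) (sub_mem (hw _) (hw _)), ?_⟩
    have e : sh K M * sh K (-M) = 1 := by rw [← sh_add, add_neg_cancel, sh_zero]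
    have : sh K i * dg K (ww K) * sh K (-i) - sh K (i + M) * dg K (ww K) * sh K (-(i + M)) =
        sh K i * dg K (ww K) * sh K (-i) * ((sh K M - 1) * sh K (-M)) +
          (sh K M - 1) * (-(sh K i * dg K (ww K) * sh K (-i) * sh K (-M))) := by
      rw [add_comm i, neg_add_rev, sh_add, sh_add]
      exact ring_id _ _ _ _ _ e
    rw [this]
    exact hadd _ _ (hl _ (hw _) _ (hr _ (sh_mem _) _ hM))
      (hr _ (neg_mem (mul_mem (hw _) (sh_mem _))) _ hM)

theorem eps_mem (s : ℕ) : eps K s ∈ RR K := by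
  have := ideal_eps (I := fun a => a ∈ RR K) (zero_mem _) (fun _ _ => add_mem)
    (fun _ h _ => mul_mem h) (fun _ h _ h' => mul_mem h' h) (s := s) dvd_rfl
    (fun h => by
      have := (pow_dvd_pow_iff (by norm_num) (by decide)).1 h
      omega) (sub_mem (sh_mem _) (one_mem _))
  simpa using sub_mem (one_mem _) this

theorem single_mem (n : ℕ) (r : End K (Un K n)) : Pi.single n r ∈ RR K := by
  have h1 : ∀ p ∈ RR K, Pi.single n (p n) ∈ RR K := fun p hp => by
    have : Pi.single n (p n) = (eps K (n + 1) - eps K n) * p := by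
      funext m
      rcases lt_trichotomy m n with h | rfl | h
      · simp [eps, h, h.ne, h.le]
      · simp [eps]
      · simp [eps, h.ne', h.not_ge, h.not_gt]
    rw [this]
    exact mul_mem (sub_mem (eps_mem _) (eps_mem _)) hp
  have h2 : r = ∑ i : Ix n, ∑ j : Ix n, r (Pi.single j 1) i •
      (sh K (-(i.val : ℤ)) * gen K 3 * sh K (j.val : ℤ)) n := by
    refine LinearMap.ext fun v => funext fun x => ?_
    rw [LinearMap.pi_apply_eq_sum_univ r v]
    simp [gen, sh, dg, LinearMap.funLeft_apply, Pi.single_apply, add_neg_eq_zero]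
    exact Finset.sum_congr rfl fun j _ => by
      rw [mul_comm, show (fun k => if j = k then 1 else 0) = (Pi.single j 1 : Un K n) from
        funext fun k => by simp [Pi.single_apply, eq_comm]]
  rw [h2]
  have := h1 (∑ i : Ix n, ∑ j : Ix n, r (Pi.single j 1) i •
      (sh K (-(i.val : ℤ)) * gen K 3 * sh K (j.val : ℤ))) (sum_mem fun i _ => sum_mem fun j _ =>
    Subalgebra.smul_mem _ (mul_mem (mul_mem (sh_mem _) (gen_mem 3)) (sh_mem _)) _)
  simpa only [Finset.sum_apply, Pi.smul_apply] using this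

theorem finrank_Un (n : ℕ) : n < finrank K (Un K n) := by
  rw [finrank_fintype_fun_eq_card, ZMod.card]
  exact (Nat.lt_succ_self n).trans Nat.lt_two_pow_self

end Pool.Agent.Work.MP_d2e081_al
end

-- merged part: Pool.Agent.Work.MP_d2e081_al.Grp
section
/-! The elementary group over the algebra of sequences and its finite quotients. -/

set_option autoImplicit false

namespace Pool.Agent.Work.MP_d2e081_al

open Module

variable (K : Type) [Field K]

/-- The linear group of level `n`. -/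
abbrev Ln (n : ℕ) : Type := (End K (Fin 3 → Un K n))ˣ

/-- The product of the linear groups. -/
abbrev GG : Type := ∀ n, Ln K n

/-- The elementary sequences. -/
def XX (i j : Fin 3) (r : PP K) : GG K := fun n => xe i j (r n)

/-- The elementary group over the algebra. -/
def Gam : Subgroup (GG K) := Subgroup.closure {g | ∃ i j, ∃ r ∈ RR K, g = XX K i j r}

/-- The elementary generators. -/
def XG (i j : Fin 3) (r : RR K) : Gam K :=
  ⟨XX K i j r, Subgroup.subset_closure ⟨i, j, r, r.2, rfl⟩⟩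

/-- Truncation. -/
def tr (s : ℕ) : GG K →* GG K where
  toFun g n := if n < s then g n else 1
  map_one' := funext fun n => ite_self _
  map_mul' g h := funext fun n => by
    rw [Pi.mul_apply, Pi.mul_apply]
    split_ifs
    exacts [rfl, (one_mul _).symm]

variable {K}

theorem XG_st : St3 (XG K) where
  add i j r s := Subtype.ext (funext fun n => xe_st.add i j (r.1 n) (s.1 n))
  comm i j k l r s h1 h2 :=
    Subtype.ext (funext fun n => xe_st.comm i j k l (r.1 n) (s.1 n) h1 h2)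
  st i j k r s h1 h2 h3 := Subtype.ext (funext fun n => xe_st.st i j k (r.1 n) (s.1 n) h1 h2 h3)
  diag i r := Subtype.ext (funext fun n => xe_st.diag i (r.1 n))

theorem XG_gen (N : Subgroup (Gam K)) (h : ∀ i j r, XG K i j r ∈ N) : N = ⊤ := by
  refine top_unique (Subgroup.closure_closure_coe_preimage.ge.trans ((Subgroup.closure_le _).2 ?_))
  rintro ⟨_, hg⟩ ⟨i, j, r, hr, rfl⟩
  exact h i j ⟨r, hr⟩

theorem Gam_tri : Nonempty (Tri K (Option (Fin 4) → K) (Gam K)) :=
  XG_st.tri (fun i => ⟨gen K i, gen_mem i⟩) (by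
    refine top_unique (Algebra.adjoin_adjoin_coe_preimage.ge.trans (Algebra.adjoin_mono ?_))
    rintro ⟨_, hg⟩ ⟨i, rfl⟩
    exact ⟨i, rfl⟩) XG_gen

theorem Gam_EL {g : GG K} (hg : g ∈ Gam K) (n : ℕ) : g n ∈ EL K (Un K n) := by
  refine (show Gam K ≤ (EL K (Un K n)).comap (Pi.evalMonoidHom _ n) from
    (Subgroup.closure_le _).2 ?_) hg
  rintro _ ⟨i, j, r, -, rfl⟩
  exact xe_mem _ _ _

theorem tr_mem {g : GG K} (hg : ∀ n, g n ∈ EL K (Un K n)) (s : ℕ) : tr K s g ∈ Gam K := by
  induction s with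
  | zero => exact (Gam K).one_mem
  | succ s ih =>
    have h1 : tr K (s + 1) g = tr K s g * Pi.mulSingle s (g s) := by
      funext m
      rcases lt_trichotomy m s with h | rfl | h
      · simp [tr, h, h.ne, h.le]
      · simp [tr]
      · simp [tr, h.ne', h.not_ge, h.not_gt]
    rw [h1]
    refine mul_mem ih ((show EL K (Un K s) ≤ (Gam K).comap (MonoidHom.mulSingle _ s) from
      (Subgroup.closure_le _).2 ?_) (hg s))
    rintro _ ⟨i, j, r, rfl⟩
    refine Subgroup.subset_closure ⟨i, j, _, single_mem s r, funext fun m => ?_⟩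
    by_cases h : m = s
    · subst h
      simp [XX]
    · simp [XX, h, xe_st.zero]

/-- Truncation on the elementary group. -/
def trG (s : ℕ) : Gam K →* Gam K :=
  ((tr K s).comp (Gam K).subtype).codRestrict _ fun g => tr_mem (Gam_EL g.2) s

theorem exists_shift (N : Subgroup (Gam K)) [N.Normal] (hN : N.index ≠ 0) :
    ∃ M : ℤ, M ≠ 0 ∧ ∀ i j, XG K i j ⟨sh K M - 1, sub_mem (sh_mem _) (one_mem _)⟩ ∈ N := by
  have : N.FiniteIndex := ⟨hN⟩
  obtain ⟨k, l, hkl, e⟩ := Finite.exists_ne_map_eq_of_infinite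
    fun k : ℤ => (XG K 2 0 ⟨sh K k, sh_mem k⟩ : Gam K ⧸ N)
  rw [QuotientGroup.eq, ← XG_st.neg, ← XG_st.add] at e
  have hc : ∀ a : Gam K, ∀ g ∈ N, a * g * a⁻¹ ∈ N := fun a g hg => ‹N.Normal›.conj_mem g hg a
  have e' := XG_st.mul_left (s := ⟨sh K (-k), sh_mem _⟩)
    (XG_st.all (fun i j g hg => ⟨hc _ g hg, by simpa using hc (XG K i j 1)⁻¹ g hg⟩) e)
    (fun i j => hc _)
  refine ⟨l - k, sub_ne_zero.2 hkl.symm, fun i j => ?_⟩
  refine (congrArg (fun a => XG K i j a ∈ N) (Subtype.ext ?_)).mp (e' i j)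
  change sh K (-k) * (-sh K k + sh K l) = sh K (l - k) - 1
  rw [neg_add_eq_sub, mul_sub, ← sh_add, ← sh_add, neg_add_cancel, sh_zero, neg_add_eq_sub]

theorem exists_eps (N : Subgroup (Gam K)) [N.Normal] (hN : N.index ≠ 0) :
    ∃ s, ∃ b : RR K, b.1 = 1 - eps K s ∧ ∀ i j, XG K i j b ∈ N := by
  obtain ⟨M, hM, e⟩ := exists_shift N hN
  have hc : ∀ a : Gam K, ∀ g ∈ N, a * g * a⁻¹ ∈ N := fun a g hg => ‹N.Normal›.conj_mem g hg a
  obtain ⟨s, m, hm, hs⟩ := Nat.exists_eq_two_pow_mul_odd (Int.natAbs_ne_zero.2 hM)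
  refine ⟨s, ideal_eps (K := K) (I := fun a => ∃ b : RR K, b.1 = a ∧ ∀ i j, XG K i j b ∈ N)
    ⟨0, rfl, fun i j => ?_⟩ ?_ ?_ ?_ (s := s) (M := M) ?_ ?_ ⟨_, rfl, e⟩⟩
  · rw [XG_st.zero]
    exact N.one_mem
  · rintro _ _ ⟨a, rfl, h1⟩ ⟨b, rfl, h2⟩
    refine ⟨a + b, rfl, fun i j => ?_⟩
    rw [XG_st.add]
    exact N.mul_mem (h1 i j) (h2 i j)
  · rintro r hr _ ⟨a, rfl, h1⟩
    exact ⟨⟨r, hr⟩ * a, rfl, XG_st.mul_left h1 fun i j => hc _⟩
  · rintro r hr _ ⟨a, rfl, h1⟩
    exact ⟨a * ⟨r, hr⟩, rfl, XG_st.mul_right h1 fun i j => hc _⟩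
  · rw [← Int.dvd_natAbs, hs]
    push_cast
    exact dvd_mul_right _ _
  · rw [← Int.dvd_natAbs, hs, pow_succ]
    push_cast
    rw [mul_dvd_mul_iff_left (by positivity)]
    exact fun h => hm.not_two_dvd_nat (Int.natCast_dvd_natCast.1 h)

theorem XG_val (i j : Fin 3) (r : RR K) (n : ℕ) : (XG K i j r).1 n = xe i j (r.1 n) := rfl

theorem trG_val (s : ℕ) (g : Gam K) (n : ℕ) : (trG s g).1 n = if n < s then g.1 n else 1 := rfl

theorem trG_XG (s : ℕ) (i j : Fin 3) (r : RR K) :
    trG s (XG K i j r) = XG K i j (⟨_, eps_mem s⟩ * r) := by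
  refine Subtype.ext (funext fun n => ?_)
  rw [trG_val, XG_val, XG_val, Subalgebra.coe_mul, Pi.mul_apply]
  simp only [eps]
  split_ifs
  · rw [one_mul]
  · rw [zero_mul, xe_st.zero]

/-- Every finite quotient factors through a truncation. -/
theorem exists_trunc (N : Subgroup (Gam K)) [N.Normal] (hN : N.index ≠ 0) :
    ∃ s, ∀ g : Gam K, (trG s g : Gam K ⧸ N) = g := by
  obtain ⟨s, b, hb, h⟩ := exists_eps N hN
  refine ⟨s, fun g => ?_⟩
  have := XG_gen (((QuotientGroup.mk' N).comp (trG s)).eqLocus (QuotientGroup.mk' N)) fun i j r => by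
    have e : b * r = -(⟨_, eps_mem s⟩ * r) + r := Subtype.ext (by
      rw [Subalgebra.coe_mul, hb, sub_mul, one_mul, ← neg_add_eq_sub]
      rfl)
    have := XG_st.mul_right (s := r) h (fun i j g hg => ‹N.Normal›.conj_mem g hg _) i j
    rw [e, XG_st.add, XG_st.neg, ← trG_XG, ← QuotientGroup.eq] at this
    exact this
  exact (this.symm ▸ Subgroup.mem_top g : g ∈ MonoidHom.eqLocus _ _)

end Pool.Agent.Work.MP_d2e081_al
end

-- merged part: Pool.Agent.Work.MP_d2e081_al.Dbl
section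
/-! Two conjugates of the elementary group in general position. -/

set_option autoImplicit false

namespace Pool.Agent.Work.MP_d2e081_al

open Module Filter Monoid CoprodI

variable (K : Type) [Field K]

/-- Sequences at bounded distance from scalars along an ultrafilter. -/
def K0 : Subgroup (Gam K) where
  carrier := {g | ∃ C, ∀ᶠ n in hyperfilter ℕ, Near C (g.1 n)}
  one_mem' := ⟨0, Eventually.of_forall fun _ => Near.one 0⟩
  mul_mem' := fun ⟨C, h⟩ ⟨D, h'⟩ => ⟨C + D, (h.and h').mono fun _ e => e.1.mul e.2⟩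
  inv_mem' := fun ⟨C, h⟩ => ⟨C, h.mono fun _ e => e.inv⟩

instance : (K0 K).Normal := ⟨fun _ ⟨C, h⟩ g => ⟨C, h.mono fun n e => e.conj (g.1 n)⟩⟩

/-- The quotient. -/
abbrev QQ : Type := Gam K ⧸ K0 K

variable {K}

theorem large (C : ℕ) : ∀ᶠ n in hyperfilter ℕ, C ≤ n :=
  (Nat.hyperfilter_le_atTop) (eventually_ge_atTop C)

instance : Infinite (QQ K) := by
  refine not_finite_iff_infinite.1 fun h => ?_
  obtain ⟨s, hs⟩ := exists_trunc (K0 K) Subgroup.index_ne_zero_of_finite
  have h1 : trG s (XG K 0 1 1) ∈ K0 K := ⟨0, (large s).mono fun n hn => by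
    rw [trG_val, if_neg (not_lt.2 hn)]
    exact Near.one 0⟩
  obtain ⟨C, hC⟩ := (QuotientGroup.eq_one_iff _).1
    ((hs _).symm.trans ((QuotientGroup.eq_one_iff _).2 h1))
  obtain ⟨n, h2, h3⟩ := (hC.and (large C)).exists
  exact not_near_xe (h3.trans_lt (finrank_Un n)) h2

/-- The map of the double at level `n`. -/
def ph (n : ℕ) (ι : Bool → Ln K n) : Db (Gam K) →* Ln K n :=
  lift fun b => (MulAut.conj (ι b)).toMonoidHom.comp
    ((Pi.evalMonoidHom _ n).comp (Gam K).subtype)

theorem ph_fac (n : ℕ) (ι : Bool → Ln K n) (b : Bool) (g : Gam K) :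
    ph n ι (fac b g) = ι b * g.1 n * (ι b)⁻¹ := lift_of _ _

variable (K) in
/-- Words which are uniformly near scalars. -/
def NN : Subgroup (Db (Gam K)) where
  carrier := {w | ∃ C, ∀ᶠ n in hyperfilter ℕ, ∀ ι, Near C (ph n ι w)}
  one_mem' := ⟨0, Eventually.of_forall fun _ _ => by rw [map_one]; exact Near.one 0⟩
  mul_mem' := fun ⟨C, h⟩ ⟨D, h'⟩ => ⟨C + D, (h.and h').mono fun _ e ι => by
    rw [map_mul]
    exact (e.1 ι).mul (e.2 ι)⟩
  inv_mem' := fun ⟨C, h⟩ => ⟨C, h.mono fun _ e ι => by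
    rw [map_inv]
    exact (e ι).inv⟩

instance : (NN K).Normal := ⟨fun _ ⟨C, h⟩ g => ⟨C, h.mono fun n e ι => by
  rw [map_mul, map_mul, map_inv]
  exact (e ι).conj _⟩⟩

variable (K) in
/-- The projection of doubles. -/
def pr : Db (Gam K) →* Db (QQ K) := lift fun b => (fac b).comp (QuotientGroup.mk' _)

theorem pr_fac (b : Bool) (g : Gam K) : pr K (fac b g) = fac b (g : QQ K) := lift_of _ _

theorem pr_surj : Function.Surjective (pr K) := fun w => by
  induction w using CoprodI.induction_on with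
  | one => exact ⟨1, map_one _⟩
  | of b q =>
    obtain ⟨g, rfl⟩ := QuotientGroup.mk_surjective q
    exact ⟨_, pr_fac b g⟩
  | mul x y hx hy =>
    obtain ⟨x, rfl⟩ := hx
    obtain ⟨y, rfl⟩ := hy
    exact ⟨_, map_mul _ _ _⟩

theorem ker_pr : (pr K).ker ≤ NN K := fun w hw => by
  let ρ : Db (QQ K) →* Db (Gam K) ⧸ NN K := lift fun b => QuotientGroup.lift (K0 K)
    ((QuotientGroup.mk' _).comp (fac b)) fun g ⟨C, h⟩ => (QuotientGroup.eq_one_iff _).2
      ⟨C, h.mono fun n e ι => by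
        rw [ph_fac]
        exact e.conj _⟩
  have : ρ.comp (pr K) = QuotientGroup.mk' _ := ext_hom _ _ fun b => MonoidHom.ext fun g => by
    change ρ (pr K (fac b g)) = _
    rw [pr_fac]
    exact lift_of _ _
  rw [← QuotientGroup.ker_mk' (NN K), ← this]
  change ρ (pr K w) = 1
  rw [hw, map_one]

theorem free_level {w : Db (Gam K)} (hw : pr K w ≠ 1) : ∀ᶠ n in hyperfilter ℕ,
    ∃ ι : Bool → Ln K n, (∀ b, ι b ∈ EL K (Un K n)) ∧ ph n ι w ≠ 1 := by
  classical
  let ω := Word.equiv (pr K w)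
  have hω : ω.prod = pr K w := Word.equiv.symm_apply_apply _
  let l := ω.toList
  let b : Fin l.length → Bool := fun k => (l.get k).1
  let h : Fin l.length → Gam K := fun k => (l.get k).2.out
  let W : Db (Gam K) := (List.ofFn fun k => fac (b k) (h k)).prod
  have hW : pr K W = pr K w := by
    rw [← hω, Word.prod, map_list_prod, List.map_ofFn]
    conv_rhs => rw [← List.ofFn_get ω.toList, List.map_ofFn]
    refine congrArg (fun f => (List.ofFn f).prod) (funext fun k => ?_)
    exact (pr_fac _ _).trans (congrArg (fac (b k)) (QuotientGroup.out_eq' _))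
  obtain ⟨C, hC⟩ := ker_pr (x := w⁻¹ * W) (by rw [MonoidHom.mem_ker, map_mul, map_inv, hW]; simp)
  have hL : l.length ≠ 0 := fun e => hw (by
    rw [← hω, Word.prod, show ω.toList = [] from List.length_eq_zero_iff.1 e]
    rfl)
  have hh : ∀ k, ∀ᶠ n in hyperfilter ℕ, ¬ Near (2 * ((C + 1) * l.length)) ((h k).1 n) := fun k =>
    Ultrafilter.eventually_not.2 fun e => ω.ne_one _ (List.get_mem l k)
      ((QuotientGroup.out_eq' _).symm.trans ((QuotientGroup.eq_one_iff _).2 ⟨_, e⟩))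
  filter_upwards [hC, eventually_all.2 hh, large (2 * ((C + 1) * l.length))] with n h1 h2 h3
  obtain ⟨ι, h4, h5⟩ := far_word hL b (fun k k' e => by
    obtain ⟨k', hk'⟩ := k'
    obtain rfl : k.val + 1 = k' := e
    exact List.isChain_iff_getElem.1 ω.chain_ne k hk') (fun k => (h k).1 n) h2
    (h3.trans (finrank_Un n).le)
  refine ⟨ι, h4, fun e => h5 ?_⟩
  have := h1 ι
  rw [map_mul, map_inv, e, inv_one, one_mul, map_list_prod, List.map_ofFn] at this
  exact this

theorem fg_db {G : Type} [Group G] [h : Group.FG G] : Group.FG (Db G) := by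
  have := range_eq_iSup (G := fun _ : Bool => G) fun i => fac i
  rw [show lift (fun i => fac i) = MonoidHom.id (Db G) from lift_of',
    MonoidHom.range_eq_top.2 Function.surjective_id] at this
  exact ⟨this ▸ Subgroup.FG.iSup _ fun i => (Group.fg_iff_subgroup_fg _).1 inferInstance⟩

/-- The map of the double into the product. -/
def Ph (ι : Bool → GG K) : Db (Gam K) →* GG K :=
  lift fun b => (MulAut.conj (ι b)).toMonoidHom.comp (Gam K).subtype

theorem Ph_fac (ι : Bool → GG K) (b : Bool) (g : Gam K) :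
    Ph ι (fac b g) = ι b * g.1 * (ι b)⁻¹ := lift_of _ _

theorem exists_general [Group.FG (Gam K)] :
    ∃ ι : Bool → GG K, (∀ b n, ι b n ∈ EL K (Un K n)) ∧ (Ph ι).ker ≤ (pr K).ker := by
  obtain ⟨α, _, f, hf⟩ := Group.fg_iff_exists_freeGroup_hom_surjective_finite.1
    (fg_db (G := Gam K))
  have := hf.countable
  obtain ⟨e, he⟩ := exists_surjective_nat (Db (Gam K))
  obtain ⟨φ, hφ, h⟩ := extraction_forall_of_frequently
    (P := fun k n => ∃ ι : Bool → Ln K n, (∀ b, ι b ∈ EL K (Un K n)) ∧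
      (ph n ι (e k) = 1 → pr K (e k) = 1)) fun k => by
    by_cases hk : pr K (e k) = 1
    · exact Frequently.of_forall fun n => ⟨1, fun _ => one_mem _, fun _ => hk⟩
    · exact ((free_level hk).frequently.filter_mono Nat.hyperfilter_le_atTop).mono
        fun n ⟨ι, h1, h2⟩ => ⟨ι, h1, fun e => absurd e h2⟩
  have : ∀ n, ∃ ι : Bool → Ln K n, (∀ b, ι b ∈ EL K (Un K n)) ∧
      ∀ k, φ k = n → ph n ι (e k) = 1 → pr K (e k) = 1 := fun n => by
    by_cases hn : ∃ k, φ k = n
    · obtain ⟨k, rfl⟩ := hn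
      obtain ⟨ι, h1, h2⟩ := h k
      exact ⟨ι, h1, fun k' e' => by rwa [hφ.injective e']⟩
    · exact ⟨1, fun _ => one_mem _, fun k e' => absurd ⟨k, e'⟩ hn⟩
  choose ι h1 h2 using this
  refine ⟨fun b n => ι n b, fun b n => h1 n b, fun w hw => ?_⟩
  obtain ⟨k, rfl⟩ := he w
  have h3 : (Pi.evalMonoidHom _ (φ k)).comp (Ph fun b n => ι n b) = ph (φ k) (ι (φ k)) :=
    ext_hom _ _ fun b => rfl
  refine h2 _ k rfl ?_
  rw [← h3, MonoidHom.comp_apply, hw, map_one]

end Pool.Agent.Work.MP_d2e081_al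
end

-- merged part: Pool.Agent.Work.MP_d2e081_al.Main
section
/-! The pair of groups. -/

set_option autoImplicit false

namespace Pool.Agent.Work.MP_d2e081_al

open Module Monoid CoprodI

variable {K : Type} [Field K]

instance [Finite K] (n : ℕ) : Finite (Ln K n) :=
  Finite.of_injective (fun g : Ln K n => (g.val : (Fin 3 → Un K n) → Fin 3 → Un K n))
    fun _ _ h => Units.ext (DFunLike.coe_injective h)

/-- The kernel of the projection to the first levels. -/
def lev (H : Subgroup (GG K)) (s : ℕ) : Subgroup H :=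
  ((MonoidHom.pi fun n : Fin s => Pi.evalMonoidHom (Ln K) n).comp H.subtype).ker

instance (H : Subgroup (GG K)) (s : ℕ) : (lev H s).Normal := MonoidHom.normal_ker _

theorem lev_index [Finite K] (H : Subgroup (GG K)) (s : ℕ) : (lev H s).index ≠ 0 :=
  (Subgroup.finiteIndex_ker _).index_ne_zero

theorem mem_lev {H : Subgroup (GG K)} {s : ℕ} {g : H} : g ∈ lev H s ↔ ∀ n < s, g.1 n = 1 :=
  ⟨fun h n hn => congrFun h ⟨n, hn⟩, fun h => funext fun n => h n n.2⟩

theorem rf_sub [Finite K] (H : Subgroup (GG K)) (g : H) (hg : g ≠ 1) :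
    ∃ N : Subgroup H, N.Normal ∧ N.index ≠ 0 ∧ g ∉ N := by
  obtain ⟨n, hn⟩ := Function.ne_iff.1 (fun e => hg (Subtype.ext e) : g.1 ≠ 1)
  exact ⟨lev H (n + 1), inferInstance, lev_index _ _, fun h => hn (mem_lev.1 h n n.lt_succ_self)⟩

/-- The embedding of a factor. -/
def emb (ι : Bool → GG K) (b : Bool) : Gam K →* (Ph ι).range := (Ph ι).rangeRestrict.comp (fac b)

theorem emb_val (ι : Bool → GG K) (b : Bool) (g : Gam K) :
    (emb ι b g).1 = ι b * g.1 * (ι b)⁻¹ := Ph_fac ι b g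

theorem emb_inj (ι : Bool → GG K) (b : Bool) : Function.Injective (emb ι b) := fun g h e => by
  have := congrArg Subtype.val e
  rw [emb_val, emb_val, mul_left_inj, mul_right_inj] at this
  exact Subtype.ext this

theorem emb_cong [Finite K] (ι : Bool → GG K) (N : Subgroup (Gam K)) (h : N.Normal)
    (hN : N.index ≠ 0) : ∃ M : Subgroup (Ph ι).range, M.Normal ∧ M.index ≠ 0 ∧
      M.comap (emb ι false) ≤ N := by
  obtain ⟨s, hs⟩ := exists_trunc N hN
  refine ⟨lev _ s, inferInstance, lev_index _ _, fun g hg => ?_⟩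
  have : trG s g = 1 := Subtype.ext (funext fun n => by
    rw [trG_val]
    split_ifs with hn
    · have := mem_lev.1 hg n hn
      rwa [emb_val, Pi.mul_apply, Pi.mul_apply, Pi.inv_apply, conj_eq_one_iff] at this
    · rfl)
  rw [← QuotientGroup.eq_one_iff, ← hs, this, QuotientGroup.mk_one]

theorem emb_dense {ι : Bool → GG K} (hι : ∀ b n, ι b n ∈ EL K (Un K n))
    (M : Subgroup (Ph ι).range) (h : M.Normal) (hM : M.index ≠ 0) (x : (Ph ι).range) :
    ∃ g, ∃ m ∈ M, x = emb ι false g * m := by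
  obtain ⟨w, rfl⟩ := (Ph ι).rangeRestrict_surjective x
  have : QuotientGroup.mk' M ((Ph ι).rangeRestrict w) ∈
      ((QuotientGroup.mk' M).comp (emb ι false)).range := by
    induction w using CoprodI.induction_on with
    | one =>
      rw [map_one, map_one]
      exact one_mem _
    | mul x y hx hy =>
      rw [map_mul, map_mul]
      exact mul_mem hx hy
    | of b g =>
      obtain ⟨s, hs⟩ := exists_trunc (M.comap (emb ι b))
        (FiniteIndexNormalSubgroup.comap (emb ι b) ⟨M, h, ⟨hM⟩⟩).isFiniteIndex'.index_ne_zero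
      have h1 := QuotientGroup.eq.1 (hs g)
      rw [Subgroup.mem_comap, map_mul, map_inv, ← QuotientGroup.eq] at h1
      refine ⟨⟨tr K s ((ι false)⁻¹ * (ι b * g.1 * (ι b)⁻¹) * ι false), tr_mem (fun n => mul_mem
        (mul_mem (inv_mem (hι _ n)) (mul_mem (mul_mem (hι _ n) (Gam_EL g.2 n)) (inv_mem (hι _ n))))
        (hι _ n)) s⟩, (congrArg (QuotientGroup.mk' M) (Subtype.ext (funext fun n => ?_))).trans h1⟩
      rw [emb_val, emb_val]
      simp only [Pi.mul_apply, Pi.inv_apply, trG_val, tr, MonoidHom.coe_mk, OneHom.coe_mk]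
      split_ifs <;> group
  obtain ⟨g, hg⟩ := this
  exact ⟨g, _, QuotientGroup.eq.1 hg, (mul_inv_cancel_left _ _).symm⟩

theorem exists_onto {ι : Bool → GG K} (h : (Ph ι).ker ≤ (pr K).ker) :
    ∃ f : (Ph ι).range →* Db (QQ K), Function.Surjective f := by
  refine ⟨(Ph ι).rangeRestrict.liftOfSurjective (Ph ι).rangeRestrict_surjective
    ⟨pr K, by rwa [MonoidHom.ker_rangeRestrict]⟩, fun y => ?_⟩
  obtain ⟨w, rfl⟩ := pr_surj y
  exact ⟨_, MonoidHom.liftOfRightInverse_comp_apply _ _ _ _ w⟩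

end Pool.Agent.Work.MP_d2e081_al
end
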