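import Mathlib

/-! A criterion for an isomorphism of profinite completions. -/

set_option autoImplicit false

namespace Pool.Agent.Work.MP_d2e081_al

open CategoryTheory ProfiniteGrp ProfiniteGrp.ProfiniteCompletion

variable {G H : Type} [Group G] [Group H] {u : G →* H}

theorem hom_unique (h2 : ∀ M : Subgroup H, M.Normal → M.index ≠ 0 →
    ∀ h : H, ∃ g : G, ∃ m ∈ M, h = u g * m) {F : Type} [Group F] [Finite F] {a b : H →* F}
    (e : ∀ g, a (u g) = b (u g)) (h : H) : a h = b h := by
  obtain ⟨g, m, hm, rfl⟩ := h2 (a.ker ⊓ b.ker) inferInstance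
    Subgroup.FiniteIndex.index_ne_zero h
  rw [map_mul, map_mul, e, hm.1, hm.2]

theorem isIso_completion (h1 : ∀ N : Subgroup G, N.Normal → N.index ≠ 0 →
      ∃ M : Subgroup H, M.Normal ∧ M.index ≠ 0 ∧ M.comap u ≤ N)
    (h2 : ∀ M : Subgroup H, M.Normal → M.index ≠ 0 → ∀ h : H, ∃ g : G, ∃ m ∈ M, h = u g * m) :
    IsIso (profiniteCompletion.map (GrpCat.ofHom u)) := by
  have a : ∀ N : FiniteIndexNormalSubgroup G, ∃ θ : H →* G ⧸ N.toSubgroup,
      ∀ g, θ (u g) = g := fun N => by
    obtain ⟨M, hM, hM', h⟩ := h1 N.toSubgroup inferInstance N.isFiniteIndex'.index_ne_zero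
    have hs : Function.Surjective ((QuotientGroup.mk' M).comp u) := fun y => by
      obtain ⟨x, rfl⟩ := QuotientGroup.mk_surjective y
      obtain ⟨g, m, hm, rfl⟩ := h2 M hM hM' x
      exact ⟨g, QuotientGroup.eq.2 (by rwa [inv_mul_cancel_left])⟩
    have hk : ((QuotientGroup.mk' M).comp u).ker ≤ (QuotientGroup.mk' N.toSubgroup).ker := by
      rwa [← MonoidHom.comap_ker, QuotientGroup.ker_mk', QuotientGroup.ker_mk']
    exact ⟨(MonoidHom.liftOfSurjective _ hs ⟨_, hk⟩).comp (QuotientGroup.mk' M), fun g =>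
      MonoidHom.liftOfRightInverse_comp_apply _ _ (Function.rightInverse_surjInv hs) ⟨_, hk⟩ g⟩
  choose θ hθ using a
  let v : H →* completion (GrpCat.of G) :=
    { toFun := fun x => ⟨fun N => θ N x, fun {N N'} f => hom_unique h2
        (a := (QuotientGroup.map _ _ (MonoidHom.id G) f.le).comp (θ N)) (b := θ N')
        (fun g => by rw [MonoidHom.comp_apply, hθ, hθ]; rfl) x⟩
      map_one' := Subtype.ext (funext fun N => map_one (θ N))
      map_mul' := fun x y => Subtype.ext (funext fun N => map_mul (θ N) x y) }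
  let w : completion (GrpCat.of G) ⟶ completion (GrpCat.of H) :=
    lift (GrpCat.ofHom u ≫ eta (GrpCat.of H))
  let w' : completion (GrpCat.of H) ⟶ completion (GrpCat.of G) := lift (GrpCat.ofHom v)
  have e1 : ∀ g, v (u g) = etaFn (GrpCat.of G) g := fun g => Subtype.ext (funext fun N => hθ N g)
  have e2 : ∀ g, w.hom (etaFn (GrpCat.of G) g) = etaFn (GrpCat.of H) (u g) := fun g =>
    ConcreteCategory.congr_hom (lift_eta (GrpCat.ofHom u ≫ eta (GrpCat.of H))) g
  have e3 : ∀ x, w'.hom (etaFn (GrpCat.of H) x) = v x := fun x =>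
    ConcreteCategory.congr_hom (lift_eta (GrpCat.ofHom v)) x
  have e4 : ∀ x, w.hom (v x) = etaFn (GrpCat.of H) x := fun x => by
    refine Subtype.ext (funext fun M => ?_)
    let p : completion (GrpCat.of H) →* H ⧸ M.toSubgroup :=
      { toFun := fun y => y.1 M, map_one' := rfl, map_mul' := fun _ _ => rfl }
    exact hom_unique h2 (a := p.comp (w.hom.toMonoidHom.comp v))
      (b := QuotientGroup.mk' M.toSubgroup)
      (fun g => congrArg p ((congrArg w.hom (e1 g)).trans (e2 g))) x
  have : IsIso w := ⟨w', lift_unique _ _ (GrpCat.hom_ext (MonoidHom.ext fun g =>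
      (congrArg w'.hom (e2 g)).trans ((e3 _).trans (e1 g)))),
    lift_unique _ _ (GrpCat.hom_ext (MonoidHom.ext fun x =>
      (congrArg w.hom (e3 x)).trans (e4 x)))⟩
  exact this

end Pool.Agent.Work.MP_d2e081_al
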